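import Pool.Agent.Y116.UV.Geo
import Pool.Agent.Z125.UN.Dim2

/-!
# Complements of closed subschemes of an affine scheme
-/

set_option autoImplicit false

open CategoryTheory AlgebraicGeometry MvPolynomial Pool.Agent.Y116.UV Pool.Agent.Z125.UN

namespace Pool.Agent.V5helper52.SF

/-- The closed subscheme defined by an ideal and its complement. -/
lemma triple_ideal {R : Type} [CommRing R] {A : Type} [CommRing A] [Algebra R A] (J : Ideal A)
    (U : Sch R) (j : U ⟶ aff R A) (hj : IsOpenImmersion j.left)
    (hr : Set.range j.left = {x : PrimeSpectrum A | ∃ g ∈ J, g ∉ x.asIdeal}) :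
    IsTriple (affMap (Ideal.Quotient.mkₐ R J)) j where
  closed := closed_affMap _ (Ideal.Quotient.mkₐ_surjective R _)
  opened := hj
  compl := by
    rw [range_affMap _ (Ideal.Quotient.mkₐ_surjective R _), hr]
    ext x
    change (∀ a, Ideal.Quotient.mk J a = 0 → a ∈ x.asIdeal) ↔ ¬ ∃ g ∈ J, g ∉ x.asIdeal
    push Not
    exact ⟨fun h g hg => h g (Ideal.Quotient.eq_zero_iff_mem.mpr hg),
      fun h a ha => h a (Ideal.Quotient.eq_zero_iff_mem.mp ha)⟩

variable {k : Type} [Field k]

/-- An open subscheme of an affine scheme of finite type is of finite type. -/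
lemma ft_open {A : Type} [CommRing A] [Algebra k A] [Algebra.FiniteType k A] (U : Sch k)
    (j : U ⟶ aff k A) (hj : IsOpenImmersion j.left) : FT True U := by
  have hA := ft_aff (R := k) (A := A) True
  have hw : j.left ≫ (aff k A).hom = U.hom := Over.w j
  have hN : IsNoetherianRing A := Algebra.FiniteType.isNoetherianRing k A
  have hN2 : IsLocallyNoetherian (aff k A).left :=
    inferInstanceAs (IsLocallyNoetherian (Spec (CommRingCat.of A)))
  have h1 := hA.locallyOfFiniteType
  have h2 := hA.quasiCompact
  have h3 := hA.separated trivial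
  constructor
  · rw [← hw]
    infer_instance
  · rw [← hw]
    infer_instance
  · intro _
    rw [← hw]
    infer_instance

lemma smooth_open {A : Type} [CommRing A] [Algebra k A] (hA : Smooth (aff k A).hom) (U : Sch k)
    (j : U ⟶ aff k A) (hj : IsOpenImmersion j.left) : Smooth U.hom := by
  have hw : j.left ≫ (aff k A).hom = U.hom := Over.w j
  rw [← hw]
  infer_instance

lemma smooth_space (σ : Type) [Finite σ] : Smooth (aff k (MvPolynomial σ k)).hom := by
  have h1 : Algebra.FinitePresentation k (MvPolynomial σ k) :=
    Algebra.FinitePresentation.of_finiteType.mp inferInstance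
  exact smooth_aff ⟨inferInstance, h1⟩

end Pool.Agent.V5helper52.SF
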