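import Pool.Agent.V5helper52.SF.QMain

/-!
# Equations of degree at most two over a base of given dimension: the induction
-/

set_option autoImplicit false
set_option maxHeartbeats 400000

open CategoryTheory AlgebraicGeometry MvPolynomial Pool.Agent.Y116.UV Pool.Agent.Z125.UN
  TensorProduct

namespace Pool.Agent.V5helper52.SF

variable {k : Type} [Field k]

/-! ### the change of variables -/

section sub

variable {E : Type} [CommRing E] {M : ℕ}

/-- `X_0 ↦ T X_0 + X_1`, `X_1 ↦ X_0` -/
noncomputable def s1 (T : E) : Fin (M + 2) → MvPolynomial (Fin (M + 2)) E :=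
  Fin.cons (C T * X 0 + X 1) (Fin.cons (X 0) (fun j => X (Fin.succ (Fin.succ j))))

/-- `X_0 ↦ X_1`, `X_1 ↦ X_0 - T X_1` -/
noncomputable def s2 (T : E) : Fin (M + 2) → MvPolynomial (Fin (M + 2)) E :=
  Fin.cons (X 1) (Fin.cons (X 0 - C T * X 1) (fun j => X (Fin.succ (Fin.succ j))))

/-- the change of variables -/
noncomputable def sIso (T : E) : MvPolynomial (Fin (M + 2)) E ≃ₐ[E] MvPolynomial (Fin (M + 2)) E :=
  AlgEquiv.ofAlgHom (aeval (s1 T)) (aeval (s2 T))
    (by
      apply MvPolynomial.algHom_ext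
      intro i
      rw [AlgHom.comp_apply, aeval_X]
      refine Fin.cases ?_ (fun i => Fin.cases ?_ (fun j => ?_) i) i
      · change aeval (s1 T) (X 1) = X 0
        rw [aeval_X]
        rfl
      · change aeval (s1 T) (X 0 - C T * X 1) = X 1
        rw [map_sub, map_mul, aeval_X, aeval_X, aeval_C]
        change (C T * X 0 + X 1) - C T * X 0 = X 1
        ring
      · change aeval (s1 T) (X (Fin.succ (Fin.succ j))) = X (Fin.succ (Fin.succ j))
        rw [aeval_X]
        rfl)
    (by
      apply MvPolynomial.algHom_ext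
      intro i
      rw [AlgHom.comp_apply, aeval_X]
      refine Fin.cases ?_ (fun i => Fin.cases ?_ (fun j => ?_) i) i
      · change aeval (s2 T) (C T * X 0 + X 1) = X 0
        rw [map_add, map_mul, aeval_X, aeval_X, aeval_C]
        change C T * X 1 + (X 0 - C T * X 1) = X 0
        ring
      · change aeval (s2 T) (X 0) = X 1
        rw [aeval_X]
        rfl
      · change aeval (s2 T) (X (Fin.succ (Fin.succ j))) = X (Fin.succ (Fin.succ j))
        rw [aeval_X]
        rfl)

lemma sIso_up (T : E) (p : MvPolynomial (Fin M) E) : sIso T (up (up p)) = up (up p) := by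
  change aeval (s1 T) (rename Fin.succ (rename Fin.succ p)) = rename Fin.succ (rename Fin.succ p)
  rw [rename_rename, aeval_rename]
  have h : (aeval (s1 T ∘ (Fin.succ ∘ Fin.succ)) : MvPolynomial (Fin M) E →ₐ[E] _) =
      rename (Fin.succ ∘ Fin.succ) := by
    apply MvPolynomial.algHom_ext
    intro j
    rw [aeval_X, rename_X]
    rfl
  rw [h]

lemma up_X (j : Fin M) : up (X j : MvPolynomial (Fin M) E) = X (Fin.succ j) := rename_X _ _

lemma up_C (c : E) : up (C c : MvPolynomial (Fin M) E) = C c := rename_C _ _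

/-- the equation after the change of variables -/
lemma sIso_eq (u b c T : E) (hT : u * T ^ 2 + b * T + c = 0) (β γ₁ γ₀ : MvPolynomial (Fin M) E) :
    sIso T (C u * X 0 ^ 2 + up (C b * X 0 + up β) * X 0 +
      up (C c * X 0 ^ 2 + up γ₁ * X 0 + up γ₀)) =
    up (C (2 * u * T + b) * X 0 + C T * up β + up γ₁) * X 0 +
      up (C u * X 0 ^ 2 + up β * X 0 + up γ₀) := by
  have h0 : sIso T (X 0 : MvPolynomial (Fin (M + 2)) E) = C T * X 0 + X 1 := aeval_X _ _
  have h1 : sIso T (X 1 : MvPolynomial (Fin (M + 2)) E) = X 0 := aeval_X _ _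
  have hC : ∀ a : E, sIso T (C a : MvPolynomial (Fin (M + 2)) E) = C a := fun a =>
    (sIso T).commutes a
  have hu : ∀ p : MvPolynomial (Fin M) E, sIso T (rename Fin.succ (rename Fin.succ p)) =
      rename Fin.succ (rename Fin.succ p) := sIso_up T
  have hs : (Fin.succ 0 : Fin (M + 2)) = 1 := rfl
  simp only [up, map_add, map_mul, map_pow, rename_X, rename_C, hC, h0, hs, h1, hu]
  have hT' : (C u * C T ^ 2 + C b * C T + C c : MvPolynomial (Fin (M + 2)) E) = 0 := by
    rw [← C_pow, ← C_mul, ← C_mul, ← C_add, ← C_add, hT, C_0]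
  have h2 : (C (2 : E) : MvPolynomial (Fin (M + 2)) E) = 2 := by
    rw [map_ofNat]
  rw [h2]
  linear_combination (X 0) ^ 2 * hT'

end sub

section

variable {sep : Prop} {P : Sch k → Prop} (hP : Cls sep P) {n : ℕ}
  (hn : ∀ (A : Type) [CommRing A] [Algebra k A] [Algebra.FiniteType k A], ringKrullDim A ≤ n →
    P (aff k A))

/-- the statement for `N` variables -/
def St (P : Sch k → Prop) (n N : ℕ) : Prop :=
  ∀ (E : Type) [CommRing E] [Algebra k E] [Algebra.FiniteType k E], ringKrullDim E ≤ n →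
    ∀ q : MvPolynomial (Fin N) E, q.totalDegree ≤ 2 → P (aff k (Tq (Ideal.span {q})))

lemma bc_one {τ : Type} {E E' : Type} [CommRing E] [Algebra k E] [CommRing E'] [Algebra k E']
    (g : E →ₐ[k] E') (q : MvPolynomial τ E) :
    bc g (Ideal.span {q}) = Ideal.span {MvPolynomial.map (g : E →+* E') q} := by
  rw [bc_span, Set.image_singleton]

lemma bc_pair {τ : Type} {E E' : Type} [CommRing E] [Algebra k E] [CommRing E'] [Algebra k E']
    (g : E →ₐ[k] E') (q r : MvPolynomial τ E) :
    bc g (Ideal.span {q, r}) =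
      Ideal.span {MvPolynomial.map (g : E →+* E') q, MvPolynomial.map (g : E →+* E') r} := by
  rw [bc_span, Set.image_pair]

lemma d_map {τ : Type} {E E' : Type} [CommRing E] [CommRing E'] (g : E →+* E')
    (q : MvPolynomial τ E) {d : ℕ} (h : q.totalDegree ≤ d) :
    (MvPolynomial.map g q).totalDegree ≤ d := by
  refine le_trans ?_ h
  exact Finset.sup_mono (support_map_subset _ _)

lemma congrJ {τ : Type} {E : Type} [CommRing E] [Algebra k E] {P : Sch k → Prop}
    {J J' : Ideal (MvPolynomial τ E)} (h : J = J') (h1 : P (aff k (Tq J'))) :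
    P (aff k (Tq J)) := by
  subst h
  exact h1

include hP hn in
omit hP in
lemma base_zero : St P n 0 := by
  intro E _ _ _ hE q _
  refine hn _ ?_
  have h : Function.Surjective (tc k (Ideal.span {q})) := by
    intro x
    obtain ⟨p, rfl⟩ := tm_surj (k := k) x
    obtain ⟨y, rfl⟩ := C_surjective (σ := Fin 0) p
    exact ⟨y, rfl⟩
  exact (ringKrullDim_le_of_surjective (tc k (Ideal.span {q})).toRingHom h).trans hE

include hP

/-- a linear and a quadratic equation -/
lemma lem_pair {M : ℕ} (ih : ∀ N, N ≤ M → St P n N) {E : Type} [CommRing E] [Algebra k E]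
    [Algebra.FiniteType k E] (hE : ringKrullDim E ≤ n) (ℓ r : MvPolynomial (Fin M) E)
    (hℓ : ℓ.totalDegree ≤ 1) (hr : r.totalDegree ≤ 2) : P (aff k (Tq (Ideal.span {ℓ, r}))) := by
  apply noethT hP
  intro p hp
  let D := E ⧸ p
  have hD : IsDomain D := inferInstance
  let m : E →ₐ[k] D := Ideal.Quotient.mkₐ k p
  let ℓ' : MvPolynomial (Fin M) D := MvPolynomial.map (m : E →+* D) ℓ
  have hℓ' : ℓ'.totalDegree ≤ 1 := d_map _ _ hℓ
  have hdim : ∀ w : D, ringKrullDim (Localization.Away w) ≤ n := fun w =>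
    (dim_away w).trans ((ringKrullDim_quotient_le p).trans hE)
  have hft : ∀ w : D, Algebra.FiniteType k (Localization.Away w) := fun w => away_ft w
  have hmm : ∀ (w : D) (q : MvPolynomial (Fin M) E),
      MvPolynomial.map (((IsScalarTower.toAlgHom k D (Localization.Away w)).comp m :
        E →ₐ[k] Localization.Away w) : E →+* Localization.Away w) q =
      MvPolynomial.map (algebraMap D (Localization.Away w))
        (MvPolynomial.map (m : E →+* D) q) := by
    intro w q
    rw [MvPolynomial.map_map]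
    rfl
  by_cases hc : ∀ j, coeff (Finsupp.single j 1) ℓ' = 0
  · obtain ⟨c, h0⟩ : ∃ c : D, ℓ' = C c := ⟨_, dec0 ℓ' hℓ' hc⟩
    have h0' : MvPolynomial.map (m : E →+* D) ℓ = C c := h0
    by_cases hc0 : c = 0
    · refine ⟨1, one_ne_zero, ?_⟩
      have := hft 1
      have h1 : ∀ y : MvPolynomial (Fin M) (Localization.Away (1 : D)),
          Ideal.span {0, y} = Ideal.span {y} := fun y => by
        rw [Ideal.span_insert, Ideal.span_singleton_eq_bot.mpr rfl, bot_sup_eq]
      refine congrJ ((bc_pair _ _ _).trans ?_) (ih M le_rfl _ (hdim 1)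
        (MvPolynomial.map (algebraMap D (Localization.Away (1 : D)))
          (MvPolynomial.map (m : E →+* D) r)) (d_map _ _ (d_map _ _ hr)))
      rw [← h1, hmm, hmm, h0', hc0, C_0, map_zero]
    · refine ⟨c, hc0, ?_⟩
      have hu : IsUnit (MvPolynomial.map (algebraMap D (Localization.Away c))
          (MvPolynomial.map (m : E →+* D) ℓ)) := by
        rw [h0', map_C]
        exact (IsLocalization.Away.algebraMap_isUnit _).map _
      refine congrJ ((bc_pair _ _ _).trans (?_ : _ = ⊤)) ?_
      · rw [hmm, hmm]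
        exact Ideal.eq_top_of_isUnit_mem _ (Ideal.subset_span (Set.mem_insert _ _)) hu
      · refine p_empty hP.toBnd _ ?_
        exact Ideal.Quotient.subsingleton_iff.mpr rfl
  · push Not at hc
    obtain ⟨j, hj⟩ := hc
    obtain ⟨M', rfl⟩ : ∃ M', M = M' + 1 := ⟨M - 1, by have := j.2; omega⟩
    let a : D := coeff (Finsupp.single j 1) ℓ'
    refine ⟨a, hj, ?_⟩
    have := hft a
    refine congrJ ((bc_pair _ _ _).trans (by rw [hmm, hmm])) ?_
    let L := Localization.Away a
    let sw : Fin (M' + 1) ≃ Fin (M' + 1) := Equiv.swap 0 j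
    refine iso_symm hP (tIso (renameEquiv L sw) _) ?_
    rw [Set.image_pair]
    let ℓ₂ : MvPolynomial (Fin (M' + 1)) L := rename sw (MvPolynomial.map (algebraMap D L) ℓ')
    let r₂ : MvPolynomial (Fin (M' + 1)) L :=
      rename sw (MvPolynomial.map (algebraMap D L) (MvPolynomial.map (m : E →+* D) r))
    change P (aff k (Tq (Ideal.span {ℓ₂, r₂})))
    have hd1 : ℓ₂.totalDegree ≤ 1 := (totalDegree_rename_le _ _).trans (d_map _ _ hℓ')
    have hd2 : r₂.totalDegree ≤ 2 :=
      (totalDegree_rename_le _ _).trans (d_map _ _ (d_map _ _ hr))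
    have hcoeff : coeff (Finsupp.single 0 1) ℓ₂ = algebraMap D L a := by
      have h4 : Finsupp.single 0 1 = Finsupp.mapDomain sw (Finsupp.single j 1) := by
        rw [Finsupp.mapDomain_single, Equiv.swap_apply_right]
      rw [h4]
      exact (coeff_rename_mapDomain _ sw.injective _ _).trans (coeff_map _ _ _)
    have hunit : IsUnit (coeff (Finsupp.single 0 1) ℓ₂) := by
      rw [hcoeff]
      exact IsLocalization.Away.algebraMap_isUnit a
    obtain ⟨u, hu⟩ := hunit
    obtain ⟨ℓ₀, hℓ₀, he1⟩ := dec1 ℓ₂ hd1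
    obtain ⟨α, β, γ, hβ, hγ, he2⟩ := dec2 r₂ hd2
    rw [← hu] at he1
    rw [he1, he2]
    refine iso_symm hP (tElim u ℓ₀ β γ α) ?_
    refine ih M' (Nat.le_succ _) _ (hdim a) _ ?_
    have hv : (-(C (↑u⁻¹ : L) * ℓ₀)).totalDegree ≤ 1 := by
      rw [totalDegree_neg]
      exact d_mul (d_C (d := 0) _) hℓ₀ le_rfl
    exact d_add (d_add (d_mul (d_C (d := 0) _) (d_pow hv) le_rfl) (d_mul hβ hv le_rfl)) hγ

include hn

/-- equations linear in the first variable -/
lemma lem_lin {M : ℕ} (ih : ∀ N, N ≤ M → St P n N) {E : Type} [CommRing E] [Algebra k E]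
    [Algebra.FiniteType k E] (hE : ringKrullDim E ≤ n) (ℓ r : MvPolynomial (Fin M) E)
    (hℓ : ℓ.totalDegree ≤ 1) (hr : r.totalDegree ≤ 2) :
    P (aff k (Tq (Ideal.span {up ℓ * X 0 + up r}))) := by
  have hR : Algebra.FiniteType k (MvPolynomial (Fin M) E) :=
    Algebra.FiniteType.trans (S := E) inferInstance inferInstance
  refine iso' hP (lqIso ℓ r) (lin_step hP ℓ r (p_poly hP.toBnd (Fin M) (hn E hE)) ?_ ?_)
  · exact ih M le_rfl E hE ℓ (by omega)
  · exact lem_pair hP ih hE ℓ r hℓ hr

/-- equations with a unit as the coefficient of the square of the first variable -/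
lemma lem_unit {M : ℕ} (ih : ∀ N, N ≤ M → St P n N) {E : Type} [CommRing E] [Algebra k E]
    [Algebra.FiniteType k E] (hE : ringKrullDim E ≤ n) (u : Eˣ) (β γ : MvPolynomial (Fin M) E)
    (hβ : β.totalDegree ≤ 1) (hγ : γ.totalDegree ≤ 2) :
    P (aff k (Tq (Ideal.span {C (u : E) * X 0 ^ 2 + up β * X 0 + up γ}))) := by
  rcases Nat.eq_zero_or_pos M with rfl | hM
  · -- finite over `E`
    refine hn _ ?_
    obtain ⟨b, rfl⟩ := C_surjective (σ := Fin 0) β
    obtain ⟨c, rfl⟩ := C_surjective (σ := Fin 0) γ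
    set J : Ideal (MvPolynomial (Fin 1) E) :=
      Ideal.span {C (u : E) * X 0 ^ 2 + up (C b) * X 0 + up (C c)} with hJ
    have hrel : tc k J u * tv J 0 ^ 2 + tc k J b * tv J 0 + tc k J c = 0 := by
      have h : tm k J (C (u : E) * X 0 ^ 2 + up (C b) * X 0 + up (C c)) = 0 :=
        tm_zero (Ideal.subset_span rfl)
      rw [up_C, up_C, map_add, map_add, map_mul, map_mul, map_pow, tm_C, tm_C, tm_C, tm_X] at h
      exact h
    have hui : tc k J (↑u⁻¹ : E) * tc k J (u : E) = 1 := by
      rw [← map_mul, Units.inv_mul, map_one]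
    have hint0 : IsIntegral E (tv J 0) := by
      refine ⟨Polynomial.X ^ 2 + (Polynomial.C (↑u⁻¹ * b) * Polynomial.X +
        Polynomial.C (↑u⁻¹ * c)), quad_monic, ?_⟩
      rw [Polynomial.eval₂_add, Polynomial.eval₂_add, Polynomial.eval₂_mul, Polynomial.eval₂_pow,
        Polynomial.eval₂_X, Polynomial.eval₂_C, Polynomial.eval₂_C]
      change tv J 0 ^ 2 + (tc k J (↑u⁻¹ * b) * tv J 0 + tc k J (↑u⁻¹ * c)) = 0
      rw [map_mul, map_mul]
      linear_combination (tc k J (↑u⁻¹ : E)) * hrel - (tv J 0 ^ 2) * hui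
    have hint : Algebra.IsIntegral E (Tq J) := by
      refine ⟨fun x => ?_⟩
      obtain ⟨p, rfl⟩ := tm_surj (k := k) x
      induction p using MvPolynomial.induction_on with
      | C a => exact isIntegral_algebraMap (R := E) (A := Tq J) (x := a)
      | add p q hp hq =>
        rw [map_add]
        exact hp.add hq
      | mul_X p t hp =>
        rw [map_mul, tm_X, Subsingleton.elim t 0]
        exact hp.mul hint0
    exact (dim_integral (A := E) (B := Tq J)).trans hE
  · obtain ⟨M, rfl⟩ : ∃ M', M = M' + 1 := ⟨M - 1, by omega⟩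
    obtain ⟨β₀, hβ₀, he1⟩ := dec1 β hβ
    obtain ⟨c, γ₁, γ₀, hγ₁, hγ₀, he2⟩ := dec2 γ hγ
    set b : E := coeff (Finsupp.single 0 1) β
    let b' : E := ↑u⁻¹ * b
    let c' : E := ↑u⁻¹ * c
    let E' := Quad b' c'
    let T : E' := qr b' c'
    let m : E →ₐ[k] E' := IsScalarTower.toAlgHom k E E'
    have hT : m u * T ^ 2 + m b * T + m c = 0 := by
      have h := qr_rel (b := b') (c := c')
      have h1 : m u * m (↑u⁻¹ : E) = 1 := by rw [← map_mul, Units.mul_inv, map_one]
      have h2 : T ^ 2 + (m (↑u⁻¹ : E) * m b * T + m (↑u⁻¹ : E) * m c) = 0 := by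
        rw [← map_mul, ← map_mul]
        exact h
      linear_combination (m u) * h2 - (m b * T + m c) * h1
    have hfin : Module.Finite E E' := quad_finite
    have hft : Algebra.FiniteType k E' :=
      Algebra.FiniteType.trans (S := E) inferInstance inferInstance
    obtain ⟨i, hi, hb⟩ := quad_free (E := E) (b := b') (c := c')
    have hE' : ringKrullDim E' ≤ n := (dim_integral (A := E) (B := E')).trans hE
    refine free_step hP (E' := E') hi hb _ ?_
    rw [bc_one]
    have hmap : MvPolynomial.map ((IsScalarTower.toAlgHom k E E' : E →ₐ[k] E') : E →+* E')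
        (C (u : E) * X 0 ^ 2 + up β * X 0 + up γ) =
        C (m u) * X 0 ^ 2 + up (C (m b) * X 0 + up (MvPolynomial.map (m : E →+* E') β₀)) * X 0 +
          up (C (m c) * X 0 ^ 2 + up (MvPolynomial.map (m : E →+* E') γ₁) * X 0 +
            up (MvPolynomial.map (m : E →+* E') γ₀)) := by
      rw [he1, he2]
      simp only [up, map_add, map_mul, map_pow, rename_X, rename_C, map_C, map_X, map_rename]
      rfl
    rw [hmap]
    refine iso_symm hP (tIso (sIso T) _) ?_
    rw [Set.image_singleton, sIso_eq _ _ _ _ hT]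
    refine lem_lin hP hn ih hE' _ _ ?_ ?_
    · exact d_add (d_add (d_mul (d_C (d := 0) _) (dX 0) le_rfl)
        (d_mul (d_C (d := 0) _) ((up_deg _).trans (d_map _ _ hβ₀)) le_rfl))
        ((up_deg _).trans (d_map _ _ hγ₁))
    · exact d_add (d_add (d_mul (d_C (d := 0) _) (d_pow (dX 0)) le_rfl)
        (d_mul ((up_deg _).trans (d_map _ _ hβ₀)) (dX 0) le_rfl))
        ((up_deg _).trans (d_map _ _ hγ₀))

/-- **Equations of degree at most two over a base of dimension at most `n`.** -/
theorem quad_all : ∀ N : ℕ, St P n N := by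
  intro N
  induction N using Nat.strong_induction_on with
  | _ N ih =>
  rcases Nat.eq_zero_or_pos N with rfl | hN
  · exact base_zero hn
  obtain ⟨M, rfl⟩ : ∃ M, N = M + 1 := ⟨N - 1, by omega⟩
  have ih' : ∀ N, N ≤ M → St P n N := fun N hN => ih N (by omega)
  intro E _ _ _ hE q hq
  apply noethT hP
  intro p hp
  let D := E ⧸ p
  have hD : IsDomain D := inferInstance
  let m : E →ₐ[k] D := Ideal.Quotient.mkₐ k p
  let q' : MvPolynomial (Fin (M + 1)) D := MvPolynomial.map (m : E →+* D) q
  have hq' : q'.totalDegree ≤ 2 := d_map _ _ hq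
  have hdim : ∀ w : D, ringKrullDim (Localization.Away w) ≤ n := fun w =>
    (dim_away w).trans ((ringKrullDim_quotient_le p).trans hE)
  have hft : ∀ w : D, Algebra.FiniteType k (Localization.Away w) := fun w => away_ft w
  have hmm : ∀ w : D, MvPolynomial.map (((IsScalarTower.toAlgHom k D (Localization.Away w)).comp m :
      E →ₐ[k] Localization.Away w) : E →+* Localization.Away w) q =
      MvPolynomial.map (algebraMap D (Localization.Away w)) q' := by
    intro w
    rw [MvPolynomial.map_map]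
    rfl
  obtain ⟨α, β, γ, hβ, hγ, he⟩ := dec2 q' hq'
  have hmap : ∀ w : D, MvPolynomial.map (algebraMap D (Localization.Away w)) q' =
      C (algebraMap D (Localization.Away w) α) * X 0 ^ 2 +
      up (MvPolynomial.map (algebraMap D (Localization.Away w)) β) * X 0 +
      up (MvPolynomial.map (algebraMap D (Localization.Away w)) γ) := by
    intro w
    rw [he]
    simp only [up, map_add, map_mul, map_pow, map_C, map_X, map_rename]
  by_cases hα : α = 0
  · refine ⟨1, one_ne_zero, ?_⟩
    have := hft 1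
    rw [bc_one, hmm, hmap, hα, map_zero, C_0, zero_mul, zero_add]
    exact lem_lin hP hn ih' (hdim 1) _ _ (d_map _ _ hβ) (d_map _ _ hγ)
  · refine ⟨α, hα, ?_⟩
    have := hft α
    rw [bc_one, hmm, hmap]
    obtain ⟨u, hu⟩ := IsLocalization.Away.algebraMap_isUnit (S := Localization.Away α) α
    rw [← hu]
    exact lem_unit hP hn ih' (hdim α) u _ _ (d_map _ _ hβ) (d_map _ _ hγ)

end

end Pool.Agent.V5helper52.SF
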