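import Pool.Agent.V5helper52.SF.QInd
import Pool.Agent.V5helper52.SF.Compl

/-!
# Intersections of quadrics
-/

set_option autoImplicit false
set_option maxHeartbeats 400000

open CategoryTheory AlgebraicGeometry MvPolynomial Pool.Agent.Y116.UV Pool.Agent.Z125.UN
  TensorProduct

namespace Pool.Agent.V5helper52.SF

variable {k : Type} [Field k]

section iso

variable {A : Type} [CommRing A] [Algebra k A] {m : ℕ}

/-- the relation of Jouanolou's device -/
noncomputable def jr (f : Fin m → A) : MvPolynomial (Fin m) A := ∑ l, C (f l) * X l - 1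

/-- `∑ f_l x_l - 1` -/
lemma jr_eval {D : Type} [CommRing D] [Algebra k D] (f : Fin m → A) (φ : A →ₐ[k] D) (x : Fin m → D) :
    aevalTower φ x (jr f) = ∑ l, φ (f l) * x l - 1 := by
  rw [jr, map_sub, map_one, map_sum]
  congr 1
  apply Finset.sum_congr rfl
  intro l _
  rw [map_mul, aevalTower_C, aevalTower_X]

lemma jr_rel (f : Fin m → A) :
    ∑ l, tc k (Ideal.span {jr f}) (f l) * tv (Ideal.span {jr f}) l - 1 = 0 := by
  rw [← jr_eval, ← t_mk]
  exact tm_zero (Ideal.subset_span rfl)

/-- the part `t_0 = 0` -/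
theorem jouClosed (f : Fin (m + 1) → A) :
    Nonempty ((Tq (Ideal.span {jr f}) ⧸ Ideal.span {tv (Ideal.span {jr f}) 0}) ≃ₐ[k]
      Tq (Ideal.span {jr fun l => f (Fin.succ l)})) := by
  set J : Ideal (MvPolynomial (Fin (m + 1)) A) := Ideal.span {jr f} with hJ
  set f' : Fin m → A := fun l => f (Fin.succ l) with hf'
  set J' : Ideal (MvPolynomial (Fin m) A) := Ideal.span {jr f'} with hJ'
  have hr := jr_rel (k := k) f
  have hr' := jr_rel (k := k) f'
  rw [← hJ] at hr
  rw [← hJ'] at hr'
  let x : Fin (m + 1) → Tq J' := Fin.cons 0 (tv J')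
  let F : Tq J →ₐ[k] Tq J' := tLift J (tc k J') x (span_zero _ _ _ (by
    rintro p rfl
    rw [jr_eval, Fin.sum_univ_succ]
    change tc k J' (f 0) * 0 + ∑ l, tc k J' (f' l) * tv J' l - 1 = 0
    rw [mul_zero, zero_add, hr']))
  have hFc : ∀ c, F (tc k J c) = tc k J' c := fun c => tLift_tc _ _ _ c
  have hFv : ∀ t, F (tv J t) = x t := fun t => tLift_tv _ _ _ t
  let n : Tq J →ₐ[k] (Tq J ⧸ Ideal.span {tv J 0}) := qm k (tv J 0)
  have hn0 : n (tv J 0) = 0 := qm_self _
  let F1 : (Tq J ⧸ Ideal.span {tv J 0}) →ₐ[k] Tq J' := qLift F (c := tv J 0) (by rw [hFv]; rfl)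
  have hF1 : ∀ y, F1 (n y) = F y := fun y => rfl
  let G : Tq J' →ₐ[k] (Tq J ⧸ Ideal.span {tv J 0}) :=
    tLift J' (n.comp (tc k J)) (fun l => n (tv J (Fin.succ l))) (span_zero _ _ _ (by
      rintro p rfl
      rw [jr_eval]
      have h1 := congrArg n hr
      rw [Fin.sum_univ_succ, map_sub, map_add, map_mul, hn0, mul_zero, zero_add, map_one,
        map_zero, map_sum] at h1
      refine Eq.trans ?_ h1
      congr 1))
  have hGc : ∀ c, G (tc k J' c) = n (tc k J c) := fun c => tLift_tc _ _ _ c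
  have hGv : ∀ t, G (tv J' t) = n (tv J (Fin.succ t)) := fun t => tLift_tv _ _ _ t
  refine ⟨mkIso F1 G ?_ ?_⟩
  · apply q_ext
    intro y
    have h : G.comp F = n := by
      apply t_ext
      · intro c
        rw [AlgHom.comp_apply, hFc, hGc]
      · intro t
        rw [AlgHom.comp_apply, hFv]
        refine Fin.cases ?_ (fun j => ?_) t
        · change G 0 = n (tv J 0)
          rw [map_zero, hn0]
        · exact hGv j
    exact DFunLike.congr_fun h y
  · apply t_ext
    · intro c
      rw [AlgHom.comp_apply, hGc, hF1, hFc]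
      rfl
    · intro t
      rw [AlgHom.comp_apply, hGv, hF1, hFv]
      rfl

/-- `f_0 + ∑ f_l x_l` -/
noncomputable def jg (f : Fin (m + 1) → A) : MvPolynomial (Fin m) A :=
  C (f 0) + ∑ l, C (f (Fin.succ l)) * X l

lemma jg_eval {D : Type} [CommRing D] [Algebra k D] (f : Fin (m + 1) → A) (φ : A →ₐ[k] D)
    (x : Fin m → D) :
    aevalTower φ x (jg f) = φ (f 0) + ∑ l, φ (f (Fin.succ l)) * x l := by
  rw [jg, map_add, aevalTower_C, map_sum]
  congr 1
  apply Finset.sum_congr rfl
  intro l _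
  rw [map_mul, aevalTower_C, aevalTower_X]

/-- the part `t_0 ≠ 0` -/
theorem jouOpen (f : Fin (m + 1) → A) :
    Nonempty (Localization.Away (tv (Ideal.span {jr f}) 0) ≃ₐ[k] Localization.Away (jg f)) := by
  set J : Ideal (MvPolynomial (Fin (m + 1)) A) := Ideal.span {jr f} with hJ
  have hr := jr_rel (k := k) f
  rw [← hJ, Fin.sum_univ_succ] at hr
  let B := MvPolynomial (Fin m) A
  let m1 : Tq J →ₐ[k] Localization.Away (tv J 0) := IsScalarTower.toAlgHom k _ _
  let m2 : B →ₐ[k] Localization.Away (jg f) := IsScalarTower.toAlgHom k _ _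
  have hm1 : IsUnit (m1 (tv J 0)) := IsLocalization.Away.algebraMap_isUnit _
  have hm2 : IsUnit (m2 (jg f)) := IsLocalization.Away.algebraMap_isUnit _
  obtain ⟨u, hu⟩ := hm1
  obtain ⟨v, hv⟩ := hm2
  have huu : m1 (tv J 0) * (↑u⁻¹ : Localization.Away (tv J 0)) = 1 := by rw [← hu, Units.mul_inv]
  have hvv : m2 (jg f) * (↑v⁻¹ : Localization.Away (jg f)) = 1 := by rw [← hv, Units.mul_inv]
  let cB : A →ₐ[k] B := IsScalarTower.toAlgHom k A B
  have hg : m2 (jg f) = m2 (cB (f 0)) + ∑ l, m2 (cB (f (Fin.succ l))) * m2 (X l) := by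
    have h1 : m2 (jg f) = m2 (cB (f 0) + ∑ l, cB (f (Fin.succ l)) * X l) := rfl
    rw [h1, map_add, map_sum]
    congr 1
    apply Finset.sum_congr rfl
    intro l _
    rw [map_mul]
  let x : Fin (m + 1) → Localization.Away (jg f) :=
    Fin.cons (↑v⁻¹ : Localization.Away (jg f)) (fun l => m2 (X l) * (↑v⁻¹ : Localization.Away (jg f)))
  let F : Tq J →ₐ[k] Localization.Away (jg f) := tLift J (m2.comp cB) x (span_zero _ _ _ (by
    rintro p rfl
    rw [jr_eval, Fin.sum_univ_succ]
    change m2 (cB (f 0)) * (↑v⁻¹ : Localization.Away (jg f)) + ∑ l, m2 (cB (f (Fin.succ l))) *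
      (m2 (X l) * (↑v⁻¹ : Localization.Away (jg f))) - 1 = 0
    rw [hg, add_mul, Finset.sum_mul] at hvv
    rw [← hvv, sub_eq_zero]
    congr 1
    apply Finset.sum_congr rfl
    intro l _
    ring))
  have hFc : ∀ c, F (tc k J c) = m2 (cB c) := fun c => tLift_tc _ _ _ c
  have hFv : ∀ t, F (tv J t) = x t := fun t => tLift_tv _ _ _ t
  let F1 : Localization.Away (tv J 0) →ₐ[k] Localization.Away (jg f) :=
    IsLocalization.liftAlgHom (M := Submonoid.powers (tv J 0)) (f := F) (by
      rintro ⟨_, i, rfl⟩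
      change IsUnit (F (tv J 0 ^ i))
      rw [map_pow, hFv]
      exact v⁻¹.isUnit.pow i)
  have hF1 : ∀ y, F1 (m1 y) = F y := fun y => IsLocalization.lift_eq _ _
  let G : B →ₐ[k] Localization.Away (tv J 0) :=
    aevalTower (m1.comp (tc k J)) (fun l => m1 (tv J (Fin.succ l)) *
      (↑u⁻¹ : Localization.Away (tv J 0)))
  have hGc : ∀ c, G (cB c) = m1 (tc k J c) := fun c => aevalTower_C _ _ _
  have hGv : ∀ t, G (X t) = m1 (tv J (Fin.succ t)) * (↑u⁻¹ : Localization.Away (tv J 0)) :=
    fun t => aevalTower_X _ _ _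
  have hGg : G (jg f) = (↑u⁻¹ : Localization.Away (tv J 0)) := by
    rw [jg_eval]
    change m1 (tc k J (f 0)) + ∑ l, m1 (tc k J (f (Fin.succ l))) * (m1 (tv J (Fin.succ l)) *
      (↑u⁻¹ : Localization.Away (tv J 0))) = _
    have h1 := congrArg m1 hr
    rw [map_sub, map_add, map_mul, map_one, map_zero, map_sum] at h1
    have h2 : ∑ l, m1 (tc k J (f (Fin.succ l))) * (m1 (tv J (Fin.succ l)) *
        (↑u⁻¹ : Localization.Away (tv J 0))) = (∑ l, m1 (tc k J (f (Fin.succ l)) *
        tv J (Fin.succ l))) * (↑u⁻¹ : Localization.Away (tv J 0)) := by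
      rw [Finset.sum_mul]
      apply Finset.sum_congr rfl
      intro l _
      rw [map_mul]
      ring
    rw [h2]
    linear_combination (↑u⁻¹ : Localization.Away (tv J 0)) * h1 - m1 (tc k J (f 0)) * huu
  let G1 : Localization.Away (jg f) →ₐ[k] Localization.Away (tv J 0) :=
    IsLocalization.liftAlgHom (M := Submonoid.powers (jg f)) (f := G) (by
      rintro ⟨_, i, rfl⟩
      change IsUnit (G (jg f ^ i))
      rw [map_pow, hGg]
      exact u⁻¹.isUnit.pow i)
  have hG1 : ∀ y, G1 (m2 y) = G y := fun y => IsLocalization.lift_eq _ _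
  have hG1v : G1 (↑v⁻¹ : Localization.Away (jg f)) = m1 (tv J 0) := by
    have h1 := congrArg G1 hvv
    rw [map_mul, hG1, hGg, map_one] at h1
    linear_combination (m1 (tv J 0)) * h1 - (G1 (↑v⁻¹ : Localization.Away (jg f))) * huu
  have hF1u : F1 (↑u⁻¹ : Localization.Away (tv J 0)) = m2 (jg f) := by
    have h1 := congrArg F1 huu
    have h2 : F (tv J 0) = (↑v⁻¹ : Localization.Away (jg f)) := hFv 0
    rw [map_mul, hF1, h2, map_one] at h1
    linear_combination (m2 (jg f)) * h1 - (F1 (↑u⁻¹ : Localization.Away (tv J 0))) * hvv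
  refine ⟨mkIso F1 G1 ?_ ?_⟩
  · apply AlgHom.coe_ringHom_injective
    refine IsLocalization.ringHom_ext (Submonoid.powers (tv J 0)) ?_
    have h : (G1.comp F1).comp m1 = m1 := by
      apply t_ext
      · intro c
        change G1 (F1 (m1 (tc k J c))) = m1 (tc k J c)
        rw [hF1, hFc, hG1, hGc]
      · intro t
        change G1 (F1 (m1 (tv J t))) = m1 (tv J t)
        rw [hF1, hFv]
        refine Fin.cases ?_ (fun j => ?_) t
        · exact hG1v
        · change G1 (m2 (X j) * (↑v⁻¹ : Localization.Away (jg f))) = m1 (tv J (Fin.succ j))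
          rw [map_mul, hG1, hG1v, hGv]
          linear_combination (m1 (tv J (Fin.succ j))) * huu
    ext y
    exact DFunLike.congr_fun h y
  · apply AlgHom.coe_ringHom_injective
    refine IsLocalization.ringHom_ext (Submonoid.powers (jg f)) ?_
    have h : (F1.comp G1).comp m2 = m2 := by
      apply poly_ext
      · intro c
        change F1 (G1 (m2 (cB c))) = m2 (cB c)
        rw [hG1, hGc, hF1, hFc]
      · intro t
        change F1 (G1 (m2 (X t))) = m2 (X t)
        rw [hG1, hGv, map_mul, hF1, hFv, hF1u]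
        change m2 (X t) * (↑v⁻¹ : Localization.Away (jg f)) * m2 (jg f) = m2 (X t)
        linear_combination (m2 (X t)) * hvv
    exact RingHom.ext fun y => DFunLike.congr_fun h y

end iso

section

variable {sep : Prop} {P : Sch k → Prop} (hP : Cls sep P) {n : ℕ}
  (hn : ∀ (A : Type) [CommRing A] [Algebra k A] [Algebra.FiniteType k A], ringKrullDim A ≤ n →
    P (aff k A))
  {E : Type} [CommRing E] [Algebra k E] [Algebra.FiniteType k E] {d : ℕ}
  (hE : ringKrullDim E ≤ d)

instance mv_ft (τ : Type) [Finite τ] : Algebra.FiniteType k (MvPolynomial τ E) :=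
  Algebra.FiniteType.trans (S := E) inferInstance inferInstance

include hE in
lemma dim_base (k : Type) [Field k] [Algebra k E] [Algebra.FiniteType k E] (m : ℕ) :
    ringKrullDim (MvPolynomial (Fin m) E) ≤ (d + m : ℕ) := by
  have : IsNoetherianRing E := Algebra.FiniteType.isNoetherianRing k E
  rw [MvPolynomial.ringKrullDim_of_isNoetherianRing, Nat.card_eq_fintype_card, Fintype.card_fin,
    Nat.cast_add]
  exact add_le_add_left hE _

include hP hn hE

/-- the quotient of the polynomial ring in two blocks of variables -/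
lemma p_inc {N m : ℕ} (hm : d + m ≤ n) (q : Fin (m + 1) → MvPolynomial (Fin N) E)
    (hq : ∀ i, (q i).totalDegree ≤ 2) :
    P (aff k (MvPolynomial (Fin m) (MvPolynomial (Fin N) E) ⧸ Ideal.span {jg q})) := by
  let e := commAlgEquiv E (Fin m) (Fin N)
  have h1 : P (aff k (Tq (Ideal.span {e (jg q)}))) := by
    refine quad_all hP hn N (MvPolynomial (Fin m) E)
      ((dim_base hE k m).trans (by exact_mod_cast hm)) (e (jg q)) ?_
    have h2 : e (jg q) = MvPolynomial.map C (q 0) +
        ∑ l, MvPolynomial.map C (q (Fin.succ l)) * C (X l) := by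
      rw [jg, map_add, map_sum, commAlgEquiv_C]
      congr 1
      apply Finset.sum_congr rfl
      intro l _
      rw [map_mul, commAlgEquiv_C, commAlgEquiv_X]
    rw [h2]
    refine d_add (d_map _ _ (hq 0)) ((totalDegree_finsetSum _ _).trans (Finset.sup_le ?_))
    intro l _
    exact d_mul (d_map _ _ (hq _)) (d_C (d := 0) _) le_rfl
  have h3 : Nonempty ((MvPolynomial (Fin m) (MvPolynomial (Fin N) E) ⧸ Ideal.span {jg q}) ≃ₐ[k]
      Tq (Ideal.span {e (jg q)})) := by
    refine ⟨Ideal.quotientEquivAlg _ _ (e.restrictScalars k) ?_⟩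
    rw [Ideal.map_span, Set.image_singleton]
    rfl
  exact iso_symm hP h3 h1

/-- Jouanolou's device for equations of degree at most two -/
lemma p_jou {N : ℕ} (hd : d ≤ n) : ∀ (m : ℕ) (_ : d + m ≤ n + 1)
    (q : Fin m → MvPolynomial (Fin N) E) (_ : ∀ i, (q i).totalDegree ≤ 2),
    P (aff k (Tq (Ideal.span {jr q}))) := by
  intro m
  induction m with
  | zero =>
    intro _ q _
    refine p_empty hP.toBnd _ ?_
    have h1 : jr q = -1 := by
      rw [jr, Finset.univ_eq_empty, Finset.sum_empty, zero_sub]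
    have h2 : Ideal.span {jr q} = ⊤ := by
      rw [h1, Ideal.span_singleton_neg]
      exact Ideal.span_singleton_one
    rw [h2]
    exact Ideal.Quotient.subsingleton_iff.mpr rfl
  | succ m ih =>
    intro hm q hq
    have hE' : P (aff k E) := hn E (hE.trans (by exact_mod_cast hd))
    refine ring_total hP.toBnd (tv (Ideal.span {jr q}) 0) ?_ ?_
    · exact iso_symm hP (jouClosed q) (ih (by omega) _ fun l => hq _)
    · have hft := away_ft (k := k) (jg q)
      refine iso_symm hP (jouOpen q) (ring_open hP.toBnd (jg q) ?_ ?_)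
      · exact p_inc hP hn hE (by omega) q hq
      · exact p_poly hP.toBnd (Fin m) (p_poly hP.toBnd (Fin N) hE')

/-- **Intersections of quadrics.** -/
theorem p_quadrics {N m : ℕ} (hd : d ≤ n) (hm : d + m ≤ n + 1)
    (q : Fin m → MvPolynomial (Fin N) E) (hq : ∀ i, (q i).totalDegree ≤ 2) :
    P (aff k (MvPolynomial (Fin N) E ⧸ Ideal.span (Set.range q))) ∧
    ∀ (U : Sch k) (j : U ⟶ aff k (MvPolynomial (Fin N) E)), IsOpenImmersion j.left →
      Set.range j.left = {x : PrimeSpectrum (MvPolynomial (Fin N) E) | ∃ l, q l ∉ x.asIdeal} →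
      P U := by
  have h1 : P (aff k (Jou q)) := p_jou hP hn hE hd m hm q hq
  have hE' : P (aff k E) := hn E (hE.trans (by exact_mod_cast hd))
  have hU : ∀ (U : Sch k) (j : U ⟶ aff k (MvPolynomial (Fin N) E)), IsOpenImmersion j.left →
      Set.range j.left = {x : PrimeSpectrum (MvPolynomial (Fin N) E) | ∃ l, q l ∉ x.asIdeal} →
      P U := fun U j hj hr => hP.jouanolou _ m q U j hj hr h1
  refine ⟨?_, hU⟩
  -- the open complement
  let X := aff k (MvPolynomial (Fin N) E)
  have hset : {x : PrimeSpectrum (MvPolynomial (Fin N) E) | ∃ l, q l ∉ x.asIdeal} =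
      {x : PrimeSpectrum (MvPolynomial (Fin N) E) | ∃ g ∈ Ideal.span (Set.range q),
        g ∉ x.asIdeal} := by
    ext x
    constructor
    · rintro ⟨l, hl⟩
      exact ⟨q l, Ideal.subset_span ⟨l, rfl⟩, hl⟩
    · rintro ⟨g, hg, hgx⟩
      by_contra hcon
      refine hgx (Ideal.span_le.mpr ?_ hg)
      rintro _ ⟨l, rfl⟩
      by_contra hl
      exact hcon ⟨l, hl⟩
  have hopen : IsOpen {x : PrimeSpectrum (MvPolynomial (Fin N) E) | ∃ l, q l ∉ x.asIdeal} := by
    have h2 : {x : PrimeSpectrum (MvPolynomial (Fin N) E) | ∃ l, q l ∉ x.asIdeal} =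
        ⋃ l, (PrimeSpectrum.basicOpen (q l) : Set (PrimeSpectrum (MvPolynomial (Fin N) E))) := by
      ext x
      rw [Set.mem_iUnion]
      rfl
    rw [h2]
    exact isOpen_iUnion fun l => (PrimeSpectrum.basicOpen (q l)).isOpen
  let V : X.left.Opens := ⟨_, hopen⟩
  have hr := range_opnMap X V
  refine hP.closed _ (opnMap X V) (ft_aff sep) (triple_ideal _ _ _ inferInstance ?_)
    (p_poly hP.toBnd (Fin N) hE') (hU _ (opnMap X V) inferInstance hr)
  exact hr.trans hset

end

end Pool.Agent.V5helper52.SF
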