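import Pool.Agent.V5helper52.SF.Alg

/-!
# Reindexing, families of blocks of variables, and preimages
-/

set_option autoImplicit false

open MvPolynomial TensorProduct

namespace Pool.Agent.V5helper52.SF

variable {k : Type} [Field k]

/-- reindexing -/
theorem fibRe {τ σ κ μ : Type} {B : Type} [CommRing B] [Algebra k B] (F : κ → MvPolynomial τ k)
    (G : μ → MvPolynomial σ k) (u : τ ≃ σ) (v : κ ≃ μ) (h : ∀ i, G (v i) = rename u (F i))
    (b : μ → B) : Nonempty (Fib F B (fun i => b (v i)) ≃ₐ[k] Fib G B b) := by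
  let b' : κ → B := fun i => b (v i)
  let f : Fib F B b' →ₐ[k] Fib G B b := fibLift (fc G b) (fun t => fv G b (u t)) (fun i => by
    rw [← fib_rel, h, aeval_rename]
    rfl)
  have hfc : ∀ x, f (fc F b' x) = fc G b x := fun x => fibLift_fc _ _ _ x
  have hfv : ∀ t, f (fv F b' t) = fv G b (u t) := fun t => fibLift_fv _ _ _ t
  let g : Fib G B b →ₐ[k] Fib F B b' := fibLift (fc F b') (fun s => fv F b' (u.symm s))
    (fun j => by
      obtain ⟨i, rfl⟩ := v.surjective j
      rw [h, aeval_rename]
      have h1 : (fun s => fv F b' (u.symm s)) ∘ u = fv F b' := by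
        funext t
        rw [Function.comp_apply, Equiv.symm_apply_apply]
      rw [h1, fib_rel])
  have hgc : ∀ x, g (fc G b x) = fc F b' x := fun x => fibLift_fc _ _ _ x
  have hgv : ∀ t, g (fv G b t) = fv F b' (u.symm t) := fun t => fibLift_fv _ _ _ t
  refine ⟨mkIso f g ?_ ?_⟩
  · apply fib_ext
    · intro x
      rw [AlgHom.comp_apply, hfc, hgc]
      rfl
    · intro t
      rw [AlgHom.comp_apply, hfv, hgv, Equiv.symm_apply_apply]
      rfl
  · apply fib_ext
    · intro x
      rw [AlgHom.comp_apply, hgc, hfc]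
      rfl
    · intro t
      rw [AlgHom.comp_apply, hgv, hfv, Equiv.apply_symm_apply]
      rfl

/-- polynomial automorphisms -/
theorem fibAuto {τ σ κ : Type} {B : Type} [CommRing B] [Algebra k B] (F : κ → MvPolynomial τ k)
    (e : MvPolynomial τ k ≃ₐ[k] MvPolynomial σ k) (b : κ → B) :
    Nonempty (Fib F B b ≃ₐ[k] Fib (fun i => e (F i)) B b) := by
  let G : κ → MvPolynomial σ k := fun i => e (F i)
  have key : ∀ (D : Type) [CommRing D] [Algebra k D] (ρ ρ' : Type)
      (e' : MvPolynomial ρ k →ₐ[k] MvPolynomial ρ' k) (x : ρ' → D) (p : MvPolynomial ρ k),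
      aeval (fun t => aeval x (e' (X t))) p = aeval x (e' p) := by
    intro D _ _ ρ ρ' e' x p
    have h : (aeval fun t => aeval x (e' (X t))) = (aeval x : MvPolynomial ρ' k →ₐ[k] D).comp e' :=
      MvPolynomial.algHom_ext fun t => by rw [aeval_X]; rfl
    exact DFunLike.congr_fun h p
  let f : Fib F B b →ₐ[k] Fib G B b := fibLift (fc G b) (fun t => aeval (fv G b) (e (X t)))
    (fun i => by
      have h1 := key (Fib G B b) τ σ e.toAlgHom (fv G b) (F i)
      exact h1.trans (fib_rel (F := G) i))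
  have hfc : ∀ x, f (fc F b x) = fc G b x := fun x => fibLift_fc _ _ _ x
  have hfv : ∀ t, f (fv F b t) = aeval (fv G b) (e (X t)) := fun t => fibLift_fv _ _ _ t
  let g : Fib G B b →ₐ[k] Fib F B b := fibLift (fc F b) (fun t => aeval (fv F b) (e.symm (X t)))
    (fun i => by
      have h1 := key (Fib F B b) σ τ e.symm.toAlgHom (fv F b) (G i)
      refine h1.trans ?_
      have h2 : e.symm.toAlgHom (G i) = F i := e.symm_apply_apply _
      rw [h2, fib_rel])
  have hgc : ∀ x, g (fc G b x) = fc F b x := fun x => fibLift_fc _ _ _ x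
  have hgv : ∀ t, g (fv G b t) = aeval (fv F b) (e.symm (X t)) := fun t => fibLift_fv _ _ _ t
  refine ⟨mkIso f g ?_ ?_⟩
  · apply fib_ext
    · intro x
      rw [AlgHom.comp_apply, hfc, hgc]
      rfl
    · intro t
      rw [AlgHom.comp_apply, hfv, map_aeval']
      have h3 : (fun s => g (fv G b s)) = fun s => aeval (fv F b) (e.symm.toAlgHom (X s)) :=
        funext hgv
      rw [h3, key]
      have h4 : e.symm.toAlgHom (e (X t)) = X t := e.symm_apply_apply _
      rw [h4, aeval_X]
      rfl
  · apply fib_ext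
    · intro x
      rw [AlgHom.comp_apply, hgc, hfc]
      rfl
    · intro t
      rw [AlgHom.comp_apply, hgv, map_aeval']
      have h3 : (fun s => f (fv F b s)) = fun s => aeval (fv G b) (e.toAlgHom (X s)) :=
        funext hfv
      rw [h3, key]
      have h4 : e.toAlgHom (e.symm (X t)) = X t := e.apply_symm_apply _
      rw [h4, aeval_X]
      rfl

/-! ### blocks of variables -/

/-- A family of polynomials `f_i`, the polynomial `f_i` in its own block of variables. -/
noncomputable def fam {ι : Type} {τ : ι → Type} (f : ∀ i, MvPolynomial (τ i) k) (i : ι) :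
    MvPolynomial (Σ i, τ i) k := rename (Sigma.mk i) (f i)

/-- block by block isomorphisms -/
noncomputable def famIso {ι : Type} {τ σ : ι → Type}
    (e : ∀ i, MvPolynomial (τ i) k ≃ₐ[k] MvPolynomial (σ i) k) :
    MvPolynomial (Σ i, τ i) k ≃ₐ[k] MvPolynomial (Σ i, σ i) k :=
  have key : ∀ {τ σ : ι → Type} (e : ∀ i, MvPolynomial (τ i) k ≃ₐ[k] MvPolynomial (σ i) k),
      (aeval (fun t : (Σ i, σ i) => rename (Sigma.mk t.1) ((e t.1).symm (X t.2))) :
        MvPolynomial (Σ i, σ i) k →ₐ[k] MvPolynomial (Σ i, τ i) k).comp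
      (aeval (fun t : (Σ i, τ i) => rename (Sigma.mk t.1) (e t.1 (X t.2)))) = AlgHom.id k _ := by
    intro τ σ e
    apply MvPolynomial.algHom_ext
    rintro ⟨i, t⟩
    rw [AlgHom.comp_apply, aeval_X, aeval_rename]
    have h1 : (aeval ((fun t : (Σ i, σ i) => rename (Sigma.mk t.1) ((e t.1).symm (X t.2)) :
        (Σ i, σ i) → MvPolynomial (Σ i, τ i) k) ∘ Sigma.mk i) :
        MvPolynomial (σ i) k →ₐ[k] MvPolynomial (Σ i, τ i) k) =
        (rename (Sigma.mk i)).comp (e i).symm.toAlgHom := by
      apply MvPolynomial.algHom_ext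
      intro s
      rw [aeval_X]
      rfl
    rw [h1]
    change rename (Sigma.mk i) ((e i).symm (e i (X t))) = _
    rw [AlgEquiv.symm_apply_apply, rename_X]
    rfl
  AlgEquiv.ofAlgHom (aeval (fun t : (Σ i, τ i) => rename (Sigma.mk t.1) (e t.1 (X t.2))))
    (aeval (fun t : (Σ i, σ i) => rename (Sigma.mk t.1) ((e t.1).symm (X t.2))))
    (key fun i => (e i).symm) (key e)

lemma famIso_fam {ι : Type} {τ σ : ι → Type}
    (e : ∀ i, MvPolynomial (τ i) k ≃ₐ[k] MvPolynomial (σ i) k) (f : ∀ i, MvPolynomial (τ i) k)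
    (i : ι) : famIso e (fam f i) = fam (fun i => e i (f i)) i := by
  change aeval (fun t : (Σ i, τ i) => rename (Sigma.mk t.1) (e t.1 (X t.2)))
    (rename (Sigma.mk i) (f i)) = rename (Sigma.mk i) (e i (f i))
  rw [aeval_rename]
  have h1 : (aeval ((fun t : (Σ i, τ i) => rename (Sigma.mk t.1) (e t.1 (X t.2)) :
      (Σ i, τ i) → MvPolynomial (Σ i, σ i) k) ∘ Sigma.mk i) :
      MvPolynomial (τ i) k →ₐ[k] MvPolynomial (Σ i, σ i) k) =
      (rename (Sigma.mk i)).comp (e i).toAlgHom := by
    apply MvPolynomial.algHom_ext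
    intro s
    rw [aeval_X]
    rfl
  rw [h1]
  rfl

/-- the blocks of a family indexed by `Option` -/
def optBlk {α : Type} (τ : Option α → Type) : (Σ a, τ (some a)) ⊕ τ none ≃ Σ i, τ i where
  toFun := Sum.elim (fun p => ⟨some p.1, p.2⟩) (fun t => ⟨none, t⟩)
  invFun p := match p with
    | ⟨some a, t⟩ => Sum.inl ⟨a, t⟩
    | ⟨none, t⟩ => Sum.inr t
  left_inv := by
    rintro (⟨a, t⟩ | t) <;> rfl
  right_inv := by
    rintro ⟨_ | a, t⟩ <;> rfl

/-- a family indexed by `Option` -/
theorem fibOpt {α : Type} {τ : Option α → Type} (f : ∀ i, MvPolynomial (τ i) k) {B : Type}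
    [CommRing B] [Algebra k B] (b : Option α → B) :
    Nonempty (Fib (fam f) B b ≃ₐ[k] Fib (fun _ : Unit => f none)
      (Fib (fam fun a => f (some a)) B (fun a => b (some a))) (fun _ => fc _ _ (b none))) := by
  obtain ⟨e1⟩ := fibTwo (fam fun a => f (some a)) (fun a => b (some a))
    (fun _ : Unit => f none) (fun _ => b none)
  let v : α ⊕ Unit ≃ Option α := (Equiv.optionEquivSumPUnit α).symm
  obtain ⟨e2⟩ := fibRe (B := B) (Sum.elim (fun i => rename Sum.inl ((fam fun a => f (some a)) i))
    (fun _ => rename Sum.inr (f none)) : α ⊕ Unit → MvPolynomial ((Σ a, τ (some a)) ⊕ τ none) k)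
    (fam f) (optBlk τ) v (by
      rintro (a | u)
      · change fam f (some a) = rename _ (rename _ (rename _ _))
        rw [rename_rename, rename_rename]
        rfl
      · change fam f none = rename _ (rename _ _)
        rw [rename_rename]
        rfl) b
  have h : (fun i => b (v i)) = Sum.elim (fun a => b (some a)) (fun _ : Unit => b none) := by
    funext i
    rcases i with a | u <;> rfl
  rw [h] at e2
  exact ⟨e2.symm.trans e1⟩

/-- a family indexed by an equivalent type -/
theorem fibEq {α β : Type} (v : α ≃ β) {τ : β → Type} (f : ∀ i, MvPolynomial (τ i) k) {B : Type}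
    [CommRing B] [Algebra k B] (b : β → B) :
    Nonempty (Fib (fam fun a => f (v a)) B (fun a => b (v a)) ≃ₐ[k] Fib (fam f) B b) := by
  refine fibRe _ _ (Equiv.sigmaCongrLeft (β := τ) v) v (fun i => ?_) b
  change rename _ _ = rename _ (rename _ _)
  rw [rename_rename]
  rfl

/-- The ideal generated by the polynomials `Q(F)`, `Q` in a given ideal: it defines the preimage
under `F` of the closed subscheme which the given ideal defines. -/
noncomputable def pre {κ τ : Type} (F : κ → MvPolynomial τ k) (I : Ideal (MvPolynomial κ k)) :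
    Ideal (MvPolynomial τ k) := I.map (aeval F : MvPolynomial κ k →ₐ[k] MvPolynomial τ k)

/-- the preimage as a fibre product -/
theorem fibPre {κ τ : Type} (F : κ → MvPolynomial τ k) (I : Ideal (MvPolynomial κ k)) :
    Nonempty (Fib F (MvPolynomial κ k ⧸ I) (fun i => Ideal.Quotient.mk I (X i)) ≃ₐ[k]
      MvPolynomial τ k ⧸ pre F I) := by
  let b : κ → MvPolynomial κ k ⧸ I := fun i => Ideal.Quotient.mk I (X i)
  let f1 : (MvPolynomial κ k ⧸ I) →ₐ[k] MvPolynomial τ k ⧸ pre F I :=
    Ideal.Quotient.liftₐ I ((Ideal.Quotient.mkₐ k (pre F I)).comp (aeval F)) (fun a ha =>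
      Ideal.Quotient.eq_zero_iff_mem.mpr (Ideal.mem_map_of_mem _ ha))
  have hf1 : ∀ p, f1 (Ideal.Quotient.mk I p) = Ideal.Quotient.mk (pre F I) (aeval F p) :=
    fun p => rfl
  let f : Fib F (MvPolynomial κ k ⧸ I) b →ₐ[k] MvPolynomial τ k ⧸ pre F I :=
    fibLift f1 (fun t => Ideal.Quotient.mk _ (X t)) (fun i => by
      rw [hf1, aeval_X]
      have h := map_aeval' (Ideal.Quotient.mkₐ k (pre F I)) X (F i)
      rw [aeval_X_left_apply] at h
      exact h.symm)
  have hfc : ∀ x, f (fc F b x) = f1 x := fun x => fibLift_fc _ _ _ x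
  have hfv : ∀ t, f (fv F b t) = Ideal.Quotient.mk _ (X t) := fun t => fibLift_fv _ _ _ t
  have hg0 : ∀ p : MvPolynomial κ k, aeval (fv F b) (aeval F p) =
      fc F b (Ideal.Quotient.mk I p) := by
    intro p
    rw [map_aeval']
    have h : (fun t => aeval (fv F b) (F t)) = fun t => fc F b (b t) := funext fun t => fib_rel t
    rw [h, ← map_aeval']
    congr 1
    have h2 := map_aeval' (Ideal.Quotient.mkₐ k I) X p
    rw [aeval_X_left_apply] at h2
    exact h2.symm
  let g : (MvPolynomial τ k ⧸ pre F I) →ₐ[k] Fib F (MvPolynomial κ k ⧸ I) b :=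
    Ideal.Quotient.liftₐ _ (aeval (fv F b)) (by
      intro a ha
      have h1 : pre F I ≤ RingHom.ker (aeval (fv F b) :
          MvPolynomial τ k →ₐ[k] Fib F (MvPolynomial κ k ⧸ I) b) := by
        rw [pre, Ideal.map_le_iff_le_comap]
        intro p hp
        change aeval (fv F b) (aeval F p) = 0
        rw [hg0, Ideal.Quotient.eq_zero_iff_mem.mpr hp, map_zero]
      exact h1 ha)
  have hg : ∀ p, g (Ideal.Quotient.mk _ p) = aeval (fv F b) p := fun p => rfl
  refine ⟨mkIso f g ?_ ?_⟩
  · apply fib_ext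
    · intro x
      obtain ⟨p, rfl⟩ := Ideal.Quotient.mk_surjective x
      rw [AlgHom.comp_apply, hfc, hf1, hg, hg0]
      rfl
    · intro t
      rw [AlgHom.comp_apply, hfv, hg, aeval_X]
      rfl
  · apply Ideal.Quotient.algHom_ext
    apply MvPolynomial.algHom_ext
    intro t
    change f (g (Ideal.Quotient.mk _ (X t))) = Ideal.Quotient.mk _ (X t)
    rw [hg, aeval_X, hfv]

end Pool.Agent.V5helper52.SF
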