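import Pool.Agent.V5helper52.SF.Cls
import Pool.Agent.V5helper52.SF.Alg2
import Pool.Agent.Z125.UN.Emb
import Pool.Agent.Z125.UN.Sym

/-!
# Blocks of variables over a curve, and compositions
-/

set_option autoImplicit false

open CategoryTheory AlgebraicGeometry MvPolynomial Pool.Agent.Y116.UV Pool.Agent.Z125.UN
  TensorProduct

namespace Pool.Agent.V5helper52.SF

variable {k : Type} [Field k]

/-! ### weights -/

lemma wh_scale {τ : Type} {w : τ → ℤ} {f : MvPolynomial τ k} {N : ℤ} (c : ℤ)
    (hf : IsWeightedHomogeneous w f N) : IsWeightedHomogeneous (fun t => c * w t) f (c * N) := by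
  intro d hd
  rw [← hf hd, Finsupp.weight_apply, Finsupp.weight_apply, Finsupp.sum, Finsupp.sum,
    Finset.mul_sum]
  apply Finset.sum_congr rfl
  intro i _
  rw [nsmul_eq_mul, nsmul_eq_mul]
  ring

lemma wh_comp {ι τ : Type} {w : τ → ℤ} {a : ι → ℤ} {c d : ℤ} {F : ι → MvPolynomial τ k}
    (hF : ∀ i, IsWeightedHomogeneous w (F i) (a i * c)) {Q : MvPolynomial ι k}
    (hQ : IsWeightedHomogeneous a Q d) : IsWeightedHomogeneous w (aeval F Q) (d * c) := by
  rw [aeval_def, eval₂_eq]
  apply IsWeightedHomogeneous.sum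
  intro n hn
  have h1 : Finsupp.weight a n = d := hQ (mem_support_iff.mp hn)
  have h2 : IsWeightedHomogeneous w (∏ i ∈ n.support, F i ^ n i)
      (∑ i ∈ n.support, n i • (a i * c)) :=
    IsWeightedHomogeneous.prod _ _ _ fun i _ => (hF i).pow (n i)
  have h3 : ∑ i ∈ n.support, n i • (a i * c) = d * c := by
    rw [← h1, Finsupp.weight_apply, Finsupp.sum, Finset.sum_mul]
    apply Finset.sum_congr rfl
    intro i _
    rw [nsmul_eq_mul, nsmul_eq_mul]
    ring
  rw [h3] at h2
  exact h2.C_mul _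

lemma wh_rename {τ σ : Type} {w : σ → ℤ} (u : τ → σ) {f : MvPolynomial τ k} {N : ℤ}
    (hf : IsWeightedHomogeneous (fun t => w (u t)) f N) :
    IsWeightedHomogeneous w (rename u f) N := by
  have h := wh_comp (w := w) (c := 1) (F := fun t => (X (u t) : MvPolynomial σ k))
    (fun i => by
      have h1 := isWeightedHomogeneous_X k w (u i)
      rw [mul_one]
      exact h1) hf
  rw [mul_one] at h
  have h2 : (aeval fun t => (X (u t) : MvPolynomial σ k)) = rename u :=
    MvPolynomial.algHom_ext fun t => by rw [aeval_X, rename_X]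
  rw [h2] at h
  exact h

lemma wh_neg {τ : Type} {w : τ → ℤ} {f : MvPolynomial τ k} {N : ℤ}
    (hf : IsWeightedHomogeneous w f N) : IsWeightedHomogeneous (fun t => - w t) f (-N) := by
  have h := wh_scale (-1) hf
  simp_rw [neg_one_mul] at h
  exact h

/-! ### good polynomials -/

/-- The polynomial `f` is, up to an isomorphism of polynomial rings, homogeneous of positive degree
for some integer weights of the variables, and the scheme `f = 1` has the property `P`. -/
def Gd (P : Sch k → Prop) {τ : Type} (f : MvPolynomial τ k) : Prop :=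
  Finite τ ∧ ∃ (σ : Type) (_ : Finite σ) (e : MvPolynomial σ k ≃ₐ[k] MvPolynomial τ k)
    (w : σ → ℤ) (N : ℕ) (g : MvPolynomial σ k), 0 < N ∧ IsWeightedHomogeneous w g (N : ℤ) ∧
    e g = f ∧ P (aff k (Fib (one g) k (fun _ => (1 : k))))

section

variable {sep : Prop} {P : Sch k → Prop} (hP : Cls sep P)

include hP

lemma gd_step {τ : Type} {f : MvPolynomial τ k} (hf : Gd P f) :
    ∃ N : ℕ, 0 < N ∧ ∀ (E : Type) [CommRing E] [Algebra k E] [Algebra.FiniteType k E] (e : E),
      P (aff k (E ⧸ Ideal.span {e})) → P (aff k (Kum N e)) →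
      P (aff k (Fib (one f) E (fun _ => e))) := by
  obtain ⟨hτ, σ, hσ, e, w, N, g, hN, hg, rfl, h1⟩ := hf
  refine ⟨N, hN, fun E _ _ _ x hq hk => ?_⟩
  exact iso' hP (fibAuto (one g) e (fun _ => x)) (fib_step hP hg hN h1 x hq hk)

/-- **Blocks of variables over a curve.** -/
theorem blocks (ι : Type) [Finite ι] : ∀ (τ : ι → Type) (f : ∀ i, MvPolynomial (τ i) k),
    (∀ i, Gd P (f i)) → ∀ (B : Type) [CommRing B] [Algebra k B] [Algebra.FiniteType k B],
    ringKrullDim B ≤ 1 → ∀ b : ι → B, P (aff k (Fib (fam f) B b)) := by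
  refine (Finite.induction_empty_option (P := fun ι : Type => Finite ι ∧ ∀ (τ : ι → Type)
    (f : ∀ i, MvPolynomial (τ i) k), (∀ i, Gd P (f i)) → ∀ (B : Type) [CommRing B] [Algebra k B]
    [Algebra.FiniteType k B], ringKrullDim B ≤ 1 → ∀ b : ι → B,
    P (aff k (Fib (fam f) B b))) ?_ ⟨inferInstance, ?_⟩ ?_ ι).2
  · rintro α β v ⟨hα, h⟩
    refine ⟨Finite.of_equiv α v, fun τ f hf B _ _ _ hB b => ?_⟩
    have := fun i => (hf i).1
    exact iso' hP (fibEq v f b) (h _ (fun a => f (v a)) (fun a => hf (v a)) B hB _)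
  · intro τ f hf B _ _ _ hB b
    refine hP.curve _ ?_
    have h : Function.Surjective (fc (fam f) b) := by
      intro x
      obtain ⟨p, rfl⟩ := fmk_surj x
      obtain ⟨y, rfl⟩ := C_surjective (σ := Σ i, τ i) p
      exact ⟨y, rfl⟩
    exact (ringKrullDim_le_of_surjective (fc (fam f) b).toRingHom h).trans hB
  · rintro α _ ⟨_, ih⟩
    refine ⟨inferInstance, fun τ f hf B _ _ _ hB b => ?_⟩
    have hfin := fun i => (hf i).1
    obtain ⟨N, hN, hst⟩ := gd_step hP (hf none)
    let b' : α → B := fun a => b (some a)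
    let E := Fib (fam fun a => f (some a)) B b'
    have key : P (aff k (Fib (one (f none)) E (fun _ => fc _ _ (b none)))) := by
      apply hst
      · refine iso_symm hP (fibQuot (fam fun a => f (some a)) b' (b none)) ?_
        exact ih _ _ (fun a => hf (some a)) _ ((ringKrullDim_quotient_le _).trans hB) _
      · have := kum_ft (k := k) hN (b none)
        refine iso_symm hP (fibKum (fam fun a => f (some a)) b' N (b none)) ?_
        exact ih _ _ (fun a => hf (some a)) _ ((kum_dim hN (b none)).trans hB) _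
    exact iso_symm hP (fibOpt f b) key

/-- The preimage of a curve. -/
theorem preimage {ι : Type} [Finite ι] {τ : ι → Type} {f : ∀ i, MvPolynomial (τ i) k}
    (hf : ∀ i, Gd P (f i)) (I : Ideal (MvPolynomial ι k))
    (hI : ringKrullDim (MvPolynomial ι k ⧸ I) ≤ 1) :
    P (aff k (MvPolynomial (Σ i, τ i) k ⧸ pre (fam f) I)) := by
  have := fun i => (hf i).1
  exact iso' hP (fibPre (fam f) I) (blocks hP ι τ f hf _ hI _)

lemma fib_level {τ : Type} [Finite τ] (f : MvPolynomial τ k) (c : k) :
    P (aff k (Fib (one f) k (fun _ => c))) ↔ P (aff k (MvPolynomial τ k ⧸ Ideal.span {f - C c})) := by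
  have h : Nonempty (Fib (one f) k (fun _ => c) ≃ₐ[k] MvPolynomial τ k ⧸ Ideal.span {f - C c}) := by
    have h1 : Ideal.span (Set.range fun i : Unit => map (algebraMap k k) (one f i) - C c) =
        Ideal.span {f - C c} := by
      have h2 : (fun i : Unit => map (algebraMap k k) (one f i) - C c) = fun _ => f - C c := by
        funext i
        rw [Algebra.algebraMap_self, MvPolynomial.map_id]
      rw [h2, Set.range_const]
    exact ⟨Ideal.quotientEquivAlgOfEq k h1⟩
  exact ⟨iso' hP h, iso_symm hP h⟩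

omit hP in
lemma pre_span {κ τ : Type} (F : κ → MvPolynomial τ k) (Q : MvPolynomial κ k) :
    pre F (Ideal.span {Q}) = Ideal.span {aeval F Q} := by
  rw [pre, Ideal.map_span, Set.image_singleton]

/-- **Compositions.** -/
theorem gd_comp {ι : Type} [Finite ι] {τ : ι → Type} {f : ∀ i, MvPolynomial (τ i) k}
    (hf : ∀ i, Gd P (f i)) (Q : MvPolynomial ι k) (a : ι → ℤ) (d : ℤ) (hd : d ≠ 0)
    (hQ : IsWeightedHomogeneous a Q d)
    (hdim : ringKrullDim (MvPolynomial ι k ⧸ Ideal.span {Q - 1}) ≤ 1) :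
    Gd P (aeval (fam f) Q) := by
  have hfin := fun i => (hf i).1
  have := Fintype.ofFinite ι
  classical
  choose _ σ hσ e w N g hN hg he h1 using hf
  have hcomp : famIso e (aeval (fam g) Q) = aeval (fam f) Q := by
    have h := map_aeval' (famIso e).toAlgHom (fam g) Q
    refine h.trans ?_
    congr 2
    funext i
    refine (famIso_fam e g i).trans ?_
    simp_rw [he]
  let L : ℤ := ∏ j, (N j : ℤ)
  let c : ι → ℤ := fun i => a i * ∏ j ∈ Finset.univ.erase i, (N j : ℤ)
  have hL : L ≠ 0 := Finset.prod_ne_zero_iff.mpr fun j _ => by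
    have := hN j
    omega
  have hc : ∀ i, c i * (N i : ℤ) = a i * L := by
    intro i
    rw [mul_assoc, Finset.prod_erase_mul _ _ (Finset.mem_univ i)]
  have hwh : IsWeightedHomogeneous (fun t : Σ i, σ i => c t.1 * w t.1 t.2) (aeval (fam g) Q)
      (d * L) := by
    refine wh_comp (fun i => ?_) hQ
    apply wh_rename
    have h := wh_scale (c i) (hg i)
    rw [hc i] at h
    exact h
  have hP1 : P (aff k (Fib (one (aeval (fam g) Q)) k (fun _ => (1 : k)))) := by
    rw [fib_level hP, C_1]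
    have hg' : ∀ i, Gd P (g i) := fun i =>
      ⟨hσ i, σ i, hσ i, AlgEquiv.refl, w i, N i, g i, hN i, hg i, rfl, h1 i⟩
    have h := preimage hP hg' (Ideal.span {Q - 1}) hdim
    rw [pre_span, map_sub, map_one] at h
    exact h
  rcases lt_or_gt_of_ne (mul_ne_zero hd hL) with h | h
  · refine ⟨inferInstance, _, inferInstance, famIso e, fun t => - (c t.1 * w t.1 t.2),
      (-(d * L)).toNat, aeval (fam g) Q, by omega, ?_, hcomp, hP1⟩
    have h2 : (((-(d * L)).toNat : ℕ) : ℤ) = -(d * L) := by omega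
    rw [h2]
    exact wh_neg hwh
  · refine ⟨inferInstance, _, inferInstance, famIso e, fun t => c t.1 * w t.1 t.2,
      (d * L).toNat, aeval (fam g) Q, by omega, ?_, hcomp, hP1⟩
    have h2 : (((d * L).toNat : ℕ) : ℤ) = d * L := by omega
    rw [h2]
    exact hwh

omit hP in
lemma dim_space (m : ℕ) : ringKrullDim (MvPolynomial (Fin m) k) ≤ m := by
  rw [MvPolynomial.ringKrullDim_of_isNoetherianRing, ringKrullDim_eq_zero_of_field]
  simp

/-- compositions with a polynomial in at most two variables -/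
theorem gd_comp2 {m : ℕ} (hm : m ≤ 2) {τ : Fin m → Type} {f : ∀ i, MvPolynomial (τ i) k}
    (hf : ∀ i, Gd P (f i)) (Q : MvPolynomial (Fin m) k) (a : Fin m → ℤ) (d : ℤ) (hd : d ≠ 0)
    (hQ : IsWeightedHomogeneous a Q d) : Gd P (aeval (fam f) Q) := by
  refine gd_comp hP hf Q a d hd hQ ?_
  rcases Nat.lt_or_eq_of_le hm with hm | rfl
  · refine (ringKrullDim_quotient_le _).trans ((dim_space m).trans ?_)
    have h : m ≤ 1 := by omega
    exact_mod_cast h
  refine dim_quot (N := 1) _ fun h => ?_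
  rw [Ideal.span_singleton_eq_bot, sub_eq_zero] at h
  rw [h] at hQ
  have h1 := hQ (d := 0) (by rw [coeff_zero_one]; exact one_ne_zero)
  rw [map_zero] at h1
  exact hd h1.symm

/-- variables -/
theorem gd_var : Gd P (X () : MvPolynomial Unit k) := by
  refine ⟨inferInstance, Unit, inferInstance, AlgEquiv.refl, fun _ => 1, 1, X (), one_pos,
    isWeightedHomogeneous_X k _ _, rfl, ?_⟩
  apply hP.curve
  have h1 : ringKrullDim (MvPolynomial Unit k) ≤ 1 := by
    rw [MvPolynomial.ringKrullDim_of_isNoetherianRing, ringKrullDim_eq_zero_of_field]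
    simp
  exact (ringKrullDim_quotient_le _).trans h1

/-- trilinear forms with a block of at most three variables -/
theorem gd_tri {a b c : ℕ} (T : Fin a → Fin b → Fin c → k) (h : a ≤ 3 ∨ b ≤ 3 ∨ c ≤ 3) :
    Gd P (tri T) := by
  refine ⟨inferInstance, _, inferInstance, AlgEquiv.refl, fun _ => 1, 3, tri T, by omega, ?_, rfl,
    ?_⟩
  · rw [tri]
    refine IsWeightedHomogeneous.sum _ _ _ fun i _ => IsWeightedHomogeneous.sum _ _ _ fun j _ =>
      IsWeightedHomogeneous.sum _ _ _ fun l _ => ?_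
    have h1 := (((isWeightedHomogeneous_C (fun _ => (1 : ℤ)) (T i j l)).mul
      (isWeightedHomogeneous_X k (fun _ => (1 : ℤ)) (Sum.inl i))).mul
      (isWeightedHomogeneous_X k (fun _ => (1 : ℤ)) (Sum.inr (Sum.inl j)))).mul
      (isWeightedHomogeneous_X k (fun _ => (1 : ℤ)) (Sum.inr (Sum.inr l) :
        Fin a ⊕ (Fin b ⊕ Fin c)))
    exact h1
  · rw [fib_level hP, C_1]
    have hB := hP.toBnd
    have h2 : ∀ I : Ideal (MvPolynomial (Fin (1 + 1)) k),
        P (aff k (MvPolynomial (Fin (1 + 1)) k ⧸ I)) :=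
      dim_to_closed hB fun A _ _ _ hA => hP.curve A (by exact_mod_cast hA)
    exact of_block hB (fun a b c' hc' T => to_tri hB h2 a b c' hc' T) T h

omit hP in
/-- isomorphisms of polynomial rings -/
theorem gd_auto {τ σ : Type} (hσ : Finite σ) {f : MvPolynomial τ k} (hf : Gd P f)
    (e : MvPolynomial τ k ≃ₐ[k] MvPolynomial σ k) : Gd P (e f) := by
  obtain ⟨_, σ', hσ', e', w, N, g, hN, hg, rfl, h1⟩ := hf
  exact ⟨hσ, σ', hσ', e'.trans e, w, N, g, hN, hg, rfl, h1⟩

end

end Pool.Agent.V5helper52.SF
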