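import Pool.Agent.V5helper52.SF.Main

/-!
# Properties closed under products and finite free coverings, and separated variables
-/

set_option autoImplicit false

open CategoryTheory AlgebraicGeometry MvPolynomial Pool.Agent.Y116.UV Pool.Agent.Z125.UN
  TensorProduct

namespace Pool.Agent.V5helper52.SF

variable {k : Type} [Field k]

/-- Properties of schemes over `k` which are closed under closed-open decompositions, products, and
finite free coverings, and true in dimension at most one. -/
structure Cls (sep : Prop) (P : Sch k → Prop) : Prop extends Bnd sep P where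
  prod : ∀ (A B : Type) [CommRing A] [Algebra k A] [Algebra.FiniteType k A] [CommRing B]
    [Algebra k B] [Algebra.FiniteType k B], P (aff k A) → P (aff k B) → P (aff k (A ⊗[k] B))
  free : ∀ (A B : Type) [CommRing A] [Algebra k A] [Algebra.FiniteType k A] [CommRing B]
    [Algebra k B] [Algebra A B] [IsScalarTower k A B] (n : ℕ), 0 < n →
    Nonempty (B ≃ₗ[A] (Fin n → A)) → P (aff k B) → P (aff k A)
  curve : ∀ (A : Type) [CommRing A] [Algebra k A] [Algebra.FiniteType k A], ringKrullDim A ≤ 1 →
    P (aff k A)

instance tens_ft (A B : Type) [CommRing A] [Algebra k A] [Algebra.FiniteType k A] [CommRing B]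
    [Algebra k B] [Algebra.FiniteType k B] : Algebra.FiniteType k (A ⊗[k] B) :=
  have : Algebra.FiniteType A (A ⊗[k] B) := inferInstance
  Algebra.FiniteType.trans (S := A) inferInstance this

section

variable {sep : Prop} {P : Sch k → Prop} (hP : Cls sep P)

lemma away_ft {E : Type} [CommRing E] [Algebra k E] [Algebra.FiniteType k E] (e : E) :
    Algebra.FiniteType k (Localization.Away e) :=
  Algebra.FiniteType.trans (S := E) inferInstance inferInstance

include hP

lemma iso' {A B : Type} [CommRing A] [Algebra k A] [Algebra.FiniteType k A] [CommRing B]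
    [Algebra k B] (e : Nonempty (A ≃ₐ[k] B)) (h : P (aff k A)) : P (aff k B) := by
  obtain ⟨e⟩ := e
  exact iso_alg hP.toUni e h

lemma iso_symm {A B : Type} [CommRing A] [Algebra k A] [Algebra.FiniteType k A] [CommRing B]
    [Algebra k B] (e : Nonempty (B ≃ₐ[k] A)) (h : P (aff k A)) : P (aff k B) := by
  obtain ⟨e⟩ := e
  exact iso_alg hP.toUni e.symm h

/-- Kummer coverings -/
lemma of_kum {N : ℕ} (hN : 0 < N) {E : Type} [CommRing E] [Algebra k E] [Algebra.FiniteType k E]
    (e : E) (h : P (aff k (Kum N e))) : P (aff k (Localization.Away e)) := by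
  obtain ⟨n, hn, hb⟩ := kum_free hN e
  have := away_ft (k := k) e
  exact hP.free _ _ n hn hb h

section block

variable {τ : Type} [Finite τ] {w : τ → ℤ} {f : MvPolynomial τ k} {N : ℕ}
  (hf : IsWeightedHomogeneous w f (N : ℤ)) (hN : 0 < N)
  (h1 : P (aff k (Fib (one f) k (fun _ => (1 : k)))))

include hf hN h1

/-- The equation `f = c` over a Kummer algebra in which `c` is an `N`-th power. -/
lemma fib_kum {E : Type} [CommRing E] [Algebra k E] [Algebra.FiniteType k E] (e : E)
    (h : P (aff k (Kum N e))) : P (aff k (Fib (one f) (Kum N e) (fun _ => kc k N e e))) := by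
  have := kum_ft (k := k) hN e
  have hu : IsUnit (kr N e) := kr_unit k hN
  obtain ⟨u, hu⟩ := hu
  have h2 : P (aff k (Fib (one f) (Kum N e) (fun _ => algebraMap k (Kum N e) (1 : k)))) :=
    iso_symm hP (fibConst (one f) (fun _ => (1 : k))) (hP.prod _ _ h1 h)
  rw [map_one] at h2
  have h3 : P (aff k (Fib (one f) (Kum N e) (fun _ => kr N e ^ N))) :=
    hu ▸ iso_symm hP (fibScale hf u) h2
  rw [kr_pow (k := k)] at h3
  exact h3

/-- the open part of `f = e` -/
lemma fib_open {E : Type} [CommRing E] [Algebra k E] [Algebra.FiniteType k E] (e : E)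
    (h : P (aff k (Kum N e))) :
    P (aff k (Localization.Away (fc (one f) (fun _ : Unit => e) e))) := by
  apply of_kum hP hN
  have := kum_ft (k := k) hN e
  exact iso_symm hP (fibKum (one f) (fun _ => e) N e) (fib_kum hP hf hN h1 e h)

/-- the fibre over zero -/
lemma fib_zero : P (aff k (Fib (one f) k (fun _ => (0 : k)))) := by
  -- the base `k[s]`
  let B : Type := MvPolynomial (Fin 1) k
  let s : B := X 0
  have hdB : ringKrullDim B ≤ 1 := by
    rw [MvPolynomial.ringKrullDim_of_isNoetherianRing, ringKrullDim_eq_zero_of_field]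
    simp
  have hK : P (aff k (Kum N s)) := by
    have := kum_ft (k := k) hN s
    exact hP.curve _ ((kum_dim hN s).trans hdB)
  have h2 := fib_open hP hf hN h1 s hK
  -- the total space is an affine space
  have h3 : P (aff k (Fib (one f) B (fun _ => s))) := by
    have := Fintype.ofFinite τ
    have h4 : P (aff k (MvPolynomial τ k)) :=
      p_poly hP.toBnd τ (iso_alg hP.toUni (MvPolynomial.isEmptyAlgEquiv k (Fin 0)) (hP.space 0))
    refine iso_symm hP ⟨mkIso (fibLift (aeval fun _ => f) X fun i => ?_) (aeval (fv _ _)) ?_ ?_⟩ h4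
    · rw [aeval_X, aeval_X_left_apply]
    · apply fib_ext
      · intro x
        rw [AlgHom.comp_apply, fibLift_fc]
        have h5 : ((aeval (fv (one f) (fun _ : Unit => s))).comp
            (aeval (fun _ : Fin 1 => f) : B →ₐ[k] MvPolynomial τ k)) = fc _ _ := by
          apply MvPolynomial.algHom_ext
          intro i
          rw [AlgHom.comp_apply, aeval_X]
          have h6 := fib_rel (F := one f) (b := fun _ : Unit => s) ()
          rw [h6]
          congr 1
          rw [Subsingleton.elim i 0]
        exact DFunLike.congr_fun h5 x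
      · intro t
        rw [AlgHom.comp_apply, fibLift_fv, aeval_X]
        rfl
    · apply MvPolynomial.algHom_ext
      intro t
      rw [AlgHom.comp_apply]
      exact (congrArg _ (aeval_X _ _)).trans (fibLift_fv _ _ _ _)
  have h4 : P (aff k (Fib (one f) B (fun _ => s) ⧸ Ideal.span {fc (one f) (fun _ : Unit => s) s})) :=
    hP.closed _ _ (ft_aff sep) (triple_away _) h3 h2
  have h5 := iso' hP (fibQuot (one f) (fun _ => s) s) h4
  have h6 : (fun _ : Unit => qm k s s) = fun _ : Unit => algebraMap k (B ⧸ Ideal.span {s}) (0 : k) := by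
    funext _
    rw [qm_self, map_zero]
  rw [h6] at h5
  have h7 := iso' hP (fibConst (one f) (fun _ : Unit => (0 : k)) (B := B ⧸ Ideal.span {s})) h5
  -- `k[s] / s = k`
  have h8 : Nonempty ((B ⧸ Ideal.span {s}) ≃ₐ[k] k) := by
    refine ⟨mkIso (qLift (aeval fun _ => (0 : k)) (aeval_X _ _)) (Algebra.ofId k _) ?_ ?_⟩
    · apply q_ext
      intro x
      have h9 : (Algebra.ofId k (B ⧸ Ideal.span {s})).comp (aeval (fun _ : Fin 1 => (0 : k)) :
          B →ₐ[k] k) = qm k s := by
        apply MvPolynomial.algHom_ext
        intro i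
        rw [AlgHom.comp_apply, aeval_X, map_zero, Subsingleton.elim i 0]
        exact (qm_self (k := k) s).symm
      exact DFunLike.congr_fun h9 x
    · ext
  obtain ⟨e8⟩ := h8
  exact iso' hP ⟨(Algebra.TensorProduct.congr (AlgEquiv.refl) e8).trans
    (Algebra.TensorProduct.rid k k _)⟩ h7

/-- One step: the equation `f = e` over `E`. -/
theorem fib_step {E : Type} [CommRing E] [Algebra k E] [Algebra.FiniteType k E] (e : E)
    (hq : P (aff k (E ⧸ Ideal.span {e}))) (hk : P (aff k (Kum N e))) :
    P (aff k (Fib (one f) E (fun _ => e))) := by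
  refine hP.total _ _ (ft_aff sep) (triple_away (fc (one f) (fun _ : Unit => e) e)) ?_
    (fib_open hP hf hN h1 e hk)
  refine iso_symm hP (fibQuot (one f) (fun _ => e) e) ?_
  have h6 : (fun _ : Unit => qm k e e) = fun _ : Unit => algebraMap k (E ⧸ Ideal.span {e}) (0 : k) := by
    funext _
    rw [qm_self, map_zero]
  rw [h6]
  exact iso_symm hP (fibConst (one f) (fun _ : Unit => (0 : k)))
    (hP.prod _ _ (fib_zero hP hf hN h1) hq)

/-- The equation `f = b` over a curve. -/
theorem fib_curve {B : Type} [CommRing B] [Algebra k B] [Algebra.FiniteType k B]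
    (hB : ringKrullDim B ≤ 1) (b : B) : P (aff k (Fib (one f) B (fun _ => b))) := by
  refine fib_step hP hf hN h1 b (hP.curve _ ((ringKrullDim_quotient_le _).trans hB)) ?_
  have := kum_ft (k := k) hN b
  exact hP.curve _ ((kum_dim hN b).trans hB)

end block

end

end Pool.Agent.V5helper52.SF
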