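import Mathlib

/-!
# Fibre products `f(x) = b` over a ring and Kummer algebras
-/

set_option autoImplicit false

open MvPolynomial TensorProduct

namespace Pool.Agent.V5helper52.SF

variable {k : Type} [Field k]

/-! ### the algebra `B[x] / (F_i(x) - b_i)` -/

/-- The ring of functions on the fibre product of `Spec B` and the affine space with coordinates `x`
over the affine space with coordinates indexed by `κ`, the maps being given by `b` and `F`:
`B[x] / (F_i(x) - b_i, i ∈ κ)`. -/
def Fib {τ κ : Type} (F : κ → MvPolynomial τ k) (B : Type) [CommRing B] [Algebra k B]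
    (b : κ → B) : Type :=
  MvPolynomial τ B ⧸ Ideal.span (Set.range fun i => map (algebraMap k B) (F i) - C (b i))

section fib

variable {τ κ : Type} {F : κ → MvPolynomial τ k} {B : Type} [CommRing B] [Algebra k B] {b : κ → B}
  {D : Type} [CommRing D] [Algebra k D]

noncomputable instance : CommRing (Fib F B b) := inferInstanceAs (CommRing (_ ⧸ _))

noncomputable instance : Algebra B (Fib F B b) := inferInstanceAs (Algebra B (_ ⧸ _))

noncomputable instance : Algebra k (Fib F B b) := inferInstanceAs (Algebra k (_ ⧸ _))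

instance : IsScalarTower k B (Fib F B b) := inferInstanceAs (IsScalarTower k B (_ ⧸ _))

/-- the quotient map -/
noncomputable def fmk (F : κ → MvPolynomial τ k) (b : κ → B) : MvPolynomial τ B →ₐ[k] Fib F B b :=
  Ideal.Quotient.mkₐ k _

lemma fmk_surj : Function.Surjective (fmk F b) := Ideal.Quotient.mk_surjective

/-- the coordinates -/
noncomputable def fv (F : κ → MvPolynomial τ k) (b : κ → B) (t : τ) : Fib F B b := fmk F b (X t)

/-- the constants -/
noncomputable def fc (F : κ → MvPolynomial τ k) (b : κ → B) : B →ₐ[k] Fib F B b :=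
  IsScalarTower.toAlgHom k B (Fib F B b)

lemma fmk_C (x : B) : fmk F b (C x) = fc F b x := rfl

lemma fmk_rel (i : κ) : fmk F b (map (algebraMap k B) (F i)) = fc F b (b i) := by
  rw [← fmk_C, ← sub_eq_zero, ← map_sub]
  exact Ideal.Quotient.eq_zero_iff_mem.mpr (Ideal.subset_span ⟨i, rfl⟩)

lemma poly_ext {g h : MvPolynomial τ B →ₐ[k] D} (h1 : ∀ c, g (C c) = h (C c))
    (h2 : ∀ t, g (X t) = h (X t)) : g = h := by
  refine AlgHom.ext fun p => ?_
  induction p using MvPolynomial.induction_on with
  | C a => exact h1 a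
  | add p q hp hq => rw [map_add, map_add, hp, hq]
  | mul_X p t hp => rw [map_mul, map_mul, hp, h2]

lemma fmk_eq : fmk F b = aevalTower (fc F b) (fv F b) := by
  apply poly_ext
  · intro c
    rw [aevalTower_C, fmk_C]
  · intro t
    rw [aevalTower_X]
    rfl

lemma aevalTower_map (φ : B →ₐ[k] D) (x : τ → D) (p : MvPolynomial τ k) :
    aevalTower φ x (map (algebraMap k B) p) = aeval x p := by
  induction p using MvPolynomial.induction_on with
  | C a =>
    rw [map_C, aevalTower_C, aeval_C]
    exact φ.commutes a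
  | add p q hp hq => rw [map_add, map_add, map_add, hp, hq]
  | mul_X p t hp => rw [map_mul, map_X, map_mul, map_mul, hp, aevalTower_X, aeval_X]

lemma fib_rel (i : κ) : aeval (fv F b) (F i) = fc F b (b i) := by
  rw [← aevalTower_map (fc F b) (fv F b) (F i), ← fmk_eq, fmk_rel]

/-- the universal property -/
noncomputable def fibLift (φ : B →ₐ[k] D) (x : τ → D) (h : ∀ i, aeval x (F i) = φ (b i)) :
    Fib F B b →ₐ[k] D :=
  Ideal.Quotient.liftₐ _ (aevalTower φ x) (by
    intro a ha
    have h1 : Ideal.span (Set.range fun i => map (algebraMap k B) (F i) - C (b i)) ≤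
        RingHom.ker (aevalTower φ x : MvPolynomial τ B →ₐ[k] D) := by
      rw [Ideal.span_le]
      rintro _ ⟨i, rfl⟩
      change aevalTower φ x (map (algebraMap k B) (F i) - C (b i)) = 0
      rw [map_sub, aevalTower_map, aevalTower_C, h]
      exact sub_self _
    exact h1 ha)

lemma fibLift_fmk (φ : B →ₐ[k] D) (x : τ → D) (h : ∀ i, aeval x (F i) = φ (b i))
    (p : MvPolynomial τ B) : fibLift φ x h (fmk F b p) = aevalTower φ x p := rfl

lemma fibLift_fv (φ : B →ₐ[k] D) (x : τ → D) (h : ∀ i, aeval x (F i) = φ (b i)) (t : τ) :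
    fibLift φ x h (fv F b t) = x t := by
  rw [fv, fibLift_fmk, aevalTower_X]

lemma fibLift_fc (φ : B →ₐ[k] D) (x : τ → D) (h : ∀ i, aeval x (F i) = φ (b i)) (c : B) :
    fibLift φ x h (fc F b c) = φ c := by
  rw [← fmk_C, fibLift_fmk, aevalTower_C]

lemma fib_ext {g h : Fib F B b →ₐ[k] D} (h1 : ∀ c, g (fc F b c) = h (fc F b c))
    (h2 : ∀ t, g (fv F b t) = h (fv F b t)) : g = h := by
  have h3 : g.comp (fmk F b) = h.comp (fmk F b) := poly_ext h1 h2
  ext a
  obtain ⟨p, rfl⟩ := fmk_surj a
  exact DFunLike.congr_fun h3 p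

end fib

/-! ### the Kummer algebra `B_c[u] / (u ^ N - c)` -/

/-- The Kummer algebra `B_c[u] / (u ^ N - c)`, where `B_c` is the localisation. -/
def Kum (N : ℕ) {B : Type} [CommRing B] (c : B) : Type :=
  AdjoinRoot (Polynomial.X ^ N - Polynomial.C (algebraMap B (Localization.Away c) c))

noncomputable instance (N : ℕ) {B : Type} [CommRing B] (c : B) : CommRing (Kum N c) :=
  inferInstanceAs (CommRing (AdjoinRoot _))

noncomputable instance (N : ℕ) {B : Type} [CommRing B] (c : B) :
    Algebra (Localization.Away c) (Kum N c) := inferInstanceAs (Algebra _ (AdjoinRoot _))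

noncomputable instance (N : ℕ) {B : Type} [CommRing B] [Algebra k B] (c : B) :
    Algebra k (Kum N c) := inferInstanceAs (Algebra k (AdjoinRoot _))

instance (N : ℕ) {B : Type} [CommRing B] [Algebra k B] (c : B) :
    IsScalarTower k (Localization.Away c) (Kum N c) :=
  inferInstanceAs (IsScalarTower k _ (AdjoinRoot _))

section kum

variable {N : ℕ} {B : Type} [CommRing B] [Algebra k B] {c : B} {D : Type} [CommRing D] [Algebra k D]

/-- the root -/
noncomputable def kr (N : ℕ) {B : Type} [CommRing B] (c : B) : Kum N c := AdjoinRoot.root _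

/-- the constants -/
noncomputable def kc (k : Type) [Field k] (N : ℕ) {B : Type} [CommRing B] [Algebra k B] (c : B) :
    B →ₐ[k] Kum N c :=
  (IsScalarTower.toAlgHom k (Localization.Away c) (Kum N c)).comp
    (IsScalarTower.toAlgHom k B (Localization.Away c))

lemma kc_apply (x : B) : kc k N c x = AdjoinRoot.of _ (algebraMap B (Localization.Away c) x) := rfl

lemma kr_pow : kr N c ^ N = kc k N c c := by
  have h := AdjoinRoot.eval₂_root (Polynomial.X ^ N - Polynomial.C
    (algebraMap B (Localization.Away c) c))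
  rw [Polynomial.eval₂_sub, Polynomial.eval₂_pow, Polynomial.eval₂_X, Polynomial.eval₂_C,
    sub_eq_zero] at h
  exact h

lemma kc_unit : IsUnit (kc k N c c) := by
  rw [kc_apply]
  exact (IsLocalization.Away.algebraMap_isUnit c).map _

variable (k) in
include k in
lemma kr_unit (hN : 0 < N) : IsUnit (kr N c) := by
  have h : IsUnit (kr N c ^ N) := by
    rw [kr_pow (k := k)]
    exact kc_unit
  exact (isUnit_pow_iff hN.ne').mp h

/-- the universal property -/
noncomputable def kLift (φ : B →ₐ[k] D) (u : D) (hu : u ^ N = φ c) (hc : IsUnit (φ c)) :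
    Kum N c →ₐ[k] D :=
  AdjoinRoot.liftAlgHom _ (IsLocalization.liftAlgHom (M := Submonoid.powers c)
    (S := Localization.Away c) (f := φ) (by
      rintro ⟨_, n, rfl⟩
      change IsUnit (φ (c ^ n))
      rw [map_pow]
      exact hc.pow n)) u (by
    rw [Polynomial.eval₂_sub, Polynomial.eval₂_pow, Polynomial.eval₂_X, Polynomial.eval₂_C, hu,
      sub_eq_zero]
    exact (IsLocalization.lift_eq _ _).symm)

lemma kLift_kr (φ : B →ₐ[k] D) (u : D) (hu : u ^ N = φ c) (hc : IsUnit (φ c)) :
    kLift φ u hu hc (kr N c) = u :=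
  AdjoinRoot.liftAlgHom_root _ _ _ _

lemma kLift_kc (φ : B →ₐ[k] D) (u : D) (hu : u ^ N = φ c) (hc : IsUnit (φ c)) (x : B) :
    kLift φ u hu hc (kc k N c x) = φ x := by
  rw [kc_apply]
  exact (AdjoinRoot.liftAlgHom_of _ _ _ _ _).trans (IsLocalization.lift_eq _ _)

lemma kum_ext {g h : Kum N c →ₐ[k] D} (h1 : ∀ x, g (kc k N c x) = h (kc k N c x))
    (h2 : g (kr N c) = h (kr N c)) : g = h := by
  refine AdjoinRoot.algHom_ext' ?_ h2
  apply AlgHom.coe_ringHom_injective
  refine IsLocalization.ringHom_ext (Submonoid.powers c) ?_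
  ext x
  exact h1 x

end kum

/-! ### isomorphisms -/

section iso

variable {τ κ : Type} (F : κ → MvPolynomial τ k) {B : Type} [CommRing B] [Algebra k B] (b : κ → B)

/-- evaluation of a polynomial commutes with homomorphisms -/
lemma map_aeval' {D E : Type} [CommRing D] [Algebra k D] [CommRing E] [Algebra k E]
    (g : D →ₐ[k] E) (x : τ → D) (p : MvPolynomial τ k) :
    g (aeval x p) = aeval (fun t => g (x t)) p := by
  induction p using MvPolynomial.induction_on with
  | C a => rw [aeval_C, aeval_C, AlgHom.commutes]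
  | add p q hp hq => rw [map_add, map_add, map_add, hp, hq]
  | mul_X p t hp => rw [map_mul, map_mul, map_mul, hp, aeval_X, aeval_X]

variable (k) in
/-- the quotient map -/
noncomputable def qm (c : B) : B →ₐ[k] B ⧸ Ideal.span {c} := Ideal.Quotient.mkₐ k _

lemma qm_self (c : B) : qm k c c = 0 :=
  Ideal.Quotient.eq_zero_iff_mem.mpr (Ideal.mem_span_singleton_self c)

/-- the universal property -/
noncomputable def qLift {D : Type} [CommRing D] [Algebra k D] {c : B} (φ : B →ₐ[k] D)
    (h : φ c = 0) : (B ⧸ Ideal.span {c}) →ₐ[k] D :=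
  Ideal.Quotient.liftₐ _ φ (by
    intro a ha
    have h1 : Ideal.span {c} ≤ RingHom.ker φ := by
      rw [Ideal.span_le, Set.singleton_subset_iff]
      exact h
    exact h1 ha)

lemma qLift_qm {D : Type} [CommRing D] [Algebra k D] {c : B} (φ : B →ₐ[k] D) (h : φ c = 0)
    (x : B) : qLift φ h (qm k c x) = φ x := rfl

lemma q_ext {D : Type} [CommRing D] [Algebra k D] {c : B} {g h : (B ⧸ Ideal.span {c}) →ₐ[k] D}
    (h1 : ∀ x, g (qm k c x) = h (qm k c x)) : g = h := by
  ext a
  obtain ⟨x, rfl⟩ := Ideal.Quotient.mk_surjective a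
  exact h1 x

lemma qm_surj (c : B) : Function.Surjective (qm k c) := Ideal.Quotient.mk_surjective

/-- an isomorphism from inverse maps -/
noncomputable def mkIso {D E : Type} [CommRing D] [Algebra k D] [CommRing E] [Algebra k E]
    (f : D →ₐ[k] E) (g : E →ₐ[k] D) (h1 : g.comp f = AlgHom.id k D) (h2 : f.comp g = AlgHom.id k E) :
    D ≃ₐ[k] E := AlgEquiv.ofAlgHom f g h2 h1

/-- `(B[x] / (F - b)) / c = (B / c)[x] / (F - b)` -/
theorem fibQuot (c : B) : Nonempty ((Fib F B b ⧸ Ideal.span {fc F b c}) ≃ₐ[k]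
    Fib F (B ⧸ Ideal.span {c}) (fun i => qm k c (b i))) := by
  let f1 : Fib F B b →ₐ[k] Fib F (B ⧸ Ideal.span {c}) (fun i => qm k c (b i)) :=
    fibLift ((fc F _).comp (qm k c)) (fv F _) (fun i => by rw [AlgHom.comp_apply]; exact fib_rel i)
  have hf1c : ∀ x, f1 (fc F b x) = fc F _ (qm k c x) := fun x => by
    rw [fibLift_fc, AlgHom.comp_apply]
  have hf1v : ∀ t, f1 (fv F b t) = fv F _ t := fun t => fibLift_fv _ _ _ t
  let f := qLift f1 (c := fc F b c) (by rw [hf1c, qm_self, map_zero])
  let g1 : (B ⧸ Ideal.span {c}) →ₐ[k] (Fib F B b ⧸ Ideal.span {fc F b c}) :=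
    qLift ((qm k _).comp (fc F b)) (by rw [AlgHom.comp_apply, qm_self])
  let g : Fib F (B ⧸ Ideal.span {c}) (fun i => qm k c (b i)) →ₐ[k]
      (Fib F B b ⧸ Ideal.span {fc F b c}) :=
    fibLift g1 (fun t => qm k _ (fv F b t)) (fun i => by
      rw [← map_aeval' (qm k (fc F b c)) (fv F b), fib_rel, qLift_qm, AlgHom.comp_apply])
  have hgc : ∀ x, g (fc F _ (qm k c x)) = qm k _ (fc F b x) := fun x => by
    rw [fibLift_fc, qLift_qm, AlgHom.comp_apply]
  have hgv : ∀ t, g (fv F _ t) = qm k _ (fv F b t) := fun t => fibLift_fv _ _ _ t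
  refine ⟨mkIso f g ?_ ?_⟩
  · apply q_ext
    intro x
    rw [AlgHom.comp_apply, qLift_qm]
    have h : g.comp f1 = qm k (fc F b c) := by
      apply fib_ext
      · intro c'
        rw [AlgHom.comp_apply, hf1c, hgc]
      · intro t
        rw [AlgHom.comp_apply, hf1v, hgv]
    exact DFunLike.congr_fun h x
  · apply fib_ext
    · intro c'
      obtain ⟨c', rfl⟩ := qm_surj (k := k) c c'
      rw [AlgHom.comp_apply, hgc, qLift_qm, hf1c]
      rfl
    · intro t
      rw [AlgHom.comp_apply, hgv, qLift_qm, hf1v]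
      rfl

/-- the Kummer algebra of `B[x] / (F - b)` is the one of `B`, with the variables `x` -/
theorem fibKum (N : ℕ) (c : B) : Nonempty (Kum N (fc F b c) ≃ₐ[k]
    Fib F (Kum N c) (fun i => kc k N c (b i))) := by
  let b' : κ → Kum N c := fun i => kc k N c (b i)
  let f1 : Fib F B b →ₐ[k] Fib F (Kum N c) b' :=
    fibLift ((fc F b').comp (kc k N c)) (fv F b') (fun i => by
      rw [AlgHom.comp_apply]; exact fib_rel i)
  have hf1c : ∀ x, f1 (fc F b x) = fc F b' (kc k N c x) := fun x => by
    rw [fibLift_fc, AlgHom.comp_apply]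
  have hf1v : ∀ t, f1 (fv F b t) = fv F b' t := fun t => fibLift_fv _ _ _ t
  let f : Kum N (fc F b c) →ₐ[k] Fib F (Kum N c) b' :=
    kLift f1 (fc F b' (kr N c)) (by rw [hf1c, ← map_pow, kr_pow (k := k)])
      (by rw [hf1c]; exact kc_unit.map _)
  have hfr : f (kr N (fc F b c)) = fc F b' (kr N c) := kLift_kr _ _ _ _
  have hfc : ∀ x, f (kc k N _ x) = f1 x := fun x => kLift_kc _ _ _ _ x
  let g1 : Kum N c →ₐ[k] Kum N (fc F b c) :=
    kLift ((kc k N (fc F b c)).comp (fc F b)) (kr N _) (by
      rw [kr_pow (k := k), AlgHom.comp_apply]) (by rw [AlgHom.comp_apply]; exact kc_unit)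
  have hg1c : ∀ x, g1 (kc k N c x) = kc k N _ (fc F b x) := fun x => kLift_kc _ _ _ _ x
  have hg1r : g1 (kr N c) = kr N _ := kLift_kr _ _ _ _
  let g : Fib F (Kum N c) b' →ₐ[k] Kum N (fc F b c) :=
    fibLift g1 (fun t => kc k N _ (fv F b t)) (fun i => by
      rw [← map_aeval' (kc k N _) (fv F b), fib_rel, hg1c])
  have hgc : ∀ x, g (fc F b' x) = g1 x := fun x => fibLift_fc _ _ _ x
  have hgv : ∀ t, g (fv F b' t) = kc k N _ (fv F b t) := fun t => fibLift_fv _ _ _ t
  refine ⟨mkIso f g ?_ ?_⟩
  · apply kum_ext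
    · intro x
      rw [AlgHom.comp_apply, hfc]
      have h : g.comp f1 = kc k N (fc F b c) := by
        apply fib_ext
        · intro c'
          rw [AlgHom.comp_apply, hf1c, hgc, hg1c]
        · intro t
          rw [AlgHom.comp_apply, hf1v, hgv]
      exact DFunLike.congr_fun h x
    · rw [AlgHom.comp_apply, hfr, hgc, hg1r]
      rfl
  · apply fib_ext
    · intro x
      rw [AlgHom.comp_apply, hgc]
      have h : f.comp g1 = fc F b' := by
        apply kum_ext
        · intro y
          rw [AlgHom.comp_apply, hg1c, hfc, hf1c]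
        · rw [AlgHom.comp_apply, hg1r, hfr]
      exact DFunLike.congr_fun h x
    · intro t
      rw [AlgHom.comp_apply, hgv, hfc, hf1v]
      rfl

/-- constant equations: a product -/
theorem fibConst (a : κ → k) : Nonempty (Fib F B (fun i => algebraMap k B (a i)) ≃ₐ[k]
    TensorProduct k (Fib F k a) B) := by
  let f : Fib F B (fun i => algebraMap k B (a i)) →ₐ[k] TensorProduct k (Fib F k a) B :=
    fibLift Algebra.TensorProduct.includeRight (fun t => Algebra.TensorProduct.includeLeft
      (S := k) (fv F a t)) (fun i => by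
        have h := map_aeval' (Algebra.TensorProduct.includeLeft (S := k) :
          Fib F k a →ₐ[k] TensorProduct k (Fib F k a) B) (fv F a) (F i)
        rw [← h, fib_rel, AlgHom.commutes]
        change Algebra.TensorProduct.includeLeft (S := k) (algebraMap k (Fib F k a) (a i)) = _
        rw [AlgHom.commutes])
  have hfc : ∀ x, f (fc F _ x) = 1 ⊗ₜ[k] x := fun x => fibLift_fc _ _ _ x
  have hfv : ∀ t, f (fv F _ t) = fv F a t ⊗ₜ[k] 1 := fun t => fibLift_fv _ _ _ t
  let g1 : Fib F k a →ₐ[k] Fib F B (fun i => algebraMap k B (a i)) :=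
    fibLift (Algebra.ofId k _) (fv F _) (fun i => by
      rw [fib_rel, AlgHom.commutes]
      rfl)
  have hg1v : ∀ t, g1 (fv F a t) = fv F _ t := fun t => fibLift_fv _ _ _ t
  let g : TensorProduct k (Fib F k a) B →ₐ[k] Fib F B (fun i => algebraMap k B (a i)) :=
    Algebra.TensorProduct.productMap g1 (fc F _)
  have hgl : ∀ x, g (x ⊗ₜ[k] 1) = g1 x := fun x => by
    rw [Algebra.TensorProduct.productMap_apply_tmul, map_one, mul_one]
  have hgr : ∀ x, g (1 ⊗ₜ[k] x) = fc F _ x := fun x => by
    rw [Algebra.TensorProduct.productMap_apply_tmul, map_one, one_mul]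
  refine ⟨mkIso f g ?_ ?_⟩
  · apply fib_ext
    · intro x
      rw [AlgHom.comp_apply, hfc, hgr]
      rfl
    · intro t
      rw [AlgHom.comp_apply, hfv, hgl, hg1v]
      rfl
  · apply Algebra.TensorProduct.ext
    · apply fib_ext
      · intro x
        change f (g ((fc F a x) ⊗ₜ[k] 1)) = fc F a x ⊗ₜ[k] 1
        have h : fc F a x = algebraMap k _ x := rfl
        rw [h, hgl, AlgHom.commutes, AlgHom.commutes]
        rfl
      · intro t
        change f (g ((fv F a t) ⊗ₜ[k] 1)) = fv F a t ⊗ₜ[k] 1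
        rw [hgl, hg1v, hfv]
    · ext x
      change f (g (1 ⊗ₜ[k] x)) = 1 ⊗ₜ[k] x
      rw [hgr, hfc]

/-- two blocks of variables -/
theorem fibTwo {σ μ : Type} (G : μ → MvPolynomial σ k) (c : μ → B) :
    Nonempty (Fib (Sum.elim (fun i => rename Sum.inl (F i)) (fun j => rename Sum.inr (G j)) :
      κ ⊕ μ → MvPolynomial (τ ⊕ σ) k) B (Sum.elim b c) ≃ₐ[k]
      Fib G (Fib F B b) (fun j => fc F b (c j))) := by
  let H : κ ⊕ μ → MvPolynomial (τ ⊕ σ) k :=
    Sum.elim (fun i => rename Sum.inl (F i)) (fun j => rename Sum.inr (G j))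
  let c' : μ → Fib F B b := fun j => fc F b (c j)
  let f : Fib H B (Sum.elim b c) →ₐ[k] Fib G (Fib F B b) c' :=
    fibLift ((fc G c').comp (fc F b)) (Sum.elim (fun t => fc G c' (fv F b t)) (fv G c')) (by
      rintro (i | j)
      · change aeval _ (rename Sum.inl (F i)) = fc G c' (fc F b (b i))
        rw [aeval_rename, ← fib_rel, map_aeval']
        rfl
      · change aeval _ (rename Sum.inr (G j)) = fc G c' (c' j)
        rw [aeval_rename, ← fib_rel]
        rfl)
  have hfc : ∀ x, f (fc H _ x) = fc G c' (fc F b x) := fun x => fibLift_fc _ _ _ x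
  have hfl : ∀ t, f (fv H _ (Sum.inl t)) = fc G c' (fv F b t) := fun t => fibLift_fv _ _ _ _
  have hfr : ∀ t, f (fv H _ (Sum.inr t)) = fv G c' t := fun t => fibLift_fv _ _ _ _
  let g1 : Fib F B b →ₐ[k] Fib H B (Sum.elim b c) :=
    fibLift (fc H _) (fun t => fv H _ (Sum.inl t)) (fun i => by
      have h := fib_rel (F := H) (b := Sum.elim b c) (Sum.inl i)
      change aeval _ (rename Sum.inl (F i)) = fc H _ (b i) at h
      rw [aeval_rename] at h
      exact h)
  have hg1c : ∀ x, g1 (fc F b x) = fc H _ x := fun x => fibLift_fc _ _ _ x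
  have hg1v : ∀ t, g1 (fv F b t) = fv H _ (Sum.inl t) := fun t => fibLift_fv _ _ _ t
  let g : Fib G (Fib F B b) c' →ₐ[k] Fib H B (Sum.elim b c) :=
    fibLift g1 (fun t => fv H _ (Sum.inr t)) (fun j => by
      have h := fib_rel (F := H) (b := Sum.elim b c) (Sum.inr j)
      change aeval _ (rename Sum.inr (G j)) = fc H _ (c j) at h
      rw [aeval_rename] at h
      rw [hg1c]
      exact h)
  have hgc : ∀ x, g (fc G c' x) = g1 x := fun x => fibLift_fc _ _ _ x
  have hgv : ∀ t, g (fv G c' t) = fv H _ (Sum.inr t) := fun t => fibLift_fv _ _ _ t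
  refine ⟨mkIso f g ?_ ?_⟩
  · apply fib_ext
    · intro x
      rw [AlgHom.comp_apply, hfc, hgc, hg1c]
      rfl
    · rintro (t | t)
      · rw [AlgHom.comp_apply, hfl, hgc, hg1v]
        rfl
      · rw [AlgHom.comp_apply, hfr, hgv]
        rfl
  · apply fib_ext
    · intro x
      rw [AlgHom.comp_apply, hgc]
      have h : f.comp g1 = fc G c' := by
        apply fib_ext
        · intro y
          rw [AlgHom.comp_apply, hg1c, hfc]
        · intro t
          rw [AlgHom.comp_apply, hg1v, hfl]
      exact DFunLike.congr_fun h x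
    · intro t
      rw [AlgHom.comp_apply, hgv, hfr]
      rfl

end iso

end Pool.Agent.V5helper52.SF
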