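import Pool.Agent.V5helper52.SF.Alg
import Pool.Agent.Z125.UN.Dim2

/-!
# Properties closed under products and finite free coverings, and separated variables
-/

set_option autoImplicit false

open CategoryTheory AlgebraicGeometry MvPolynomial Pool.Agent.Y116.UV Pool.Agent.Z125.UN
  TensorProduct

namespace Pool.Agent.V5helper52.SF

variable {k : Type} [Field k]

/-! ### weighted homogeneous polynomials -/

lemma prod_zpow' {G : Type} [CommGroup G] (u : G) {ι : Type} (s : Finset ι) (n : ι → ℤ) :
    ∏ i ∈ s, u ^ n i = u ^ ∑ i ∈ s, n i := by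
  classical
  induction s using Finset.induction_on with
  | empty => rw [Finset.prod_empty, Finset.sum_empty, zpow_zero]
  | insert i s hi h => rw [Finset.prod_insert hi, Finset.sum_insert hi, zpow_add, h]

lemma wh_aeval {τ : Type} {w : τ → ℤ} {f : MvPolynomial τ k} {N : ℤ}
    (hf : IsWeightedHomogeneous w f N) {D : Type} [CommRing D] [Algebra k D] (u : Dˣ) (x : τ → D) :
    aeval (fun t => ((u ^ w t : Dˣ) : D) * x t) f = ((u ^ N : Dˣ) : D) * aeval x f := by
  rw [aeval_def, aeval_def, eval₂_eq, eval₂_eq, Finset.mul_sum]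
  apply Finset.sum_congr rfl
  intro d hd
  have h1 : Finsupp.weight w d = N := hf (mem_support_iff.mp hd)
  have h2 : ∏ i ∈ d.support, (((u ^ w i : Dˣ) : D) * x i) ^ d i =
      ((u ^ N : Dˣ) : D) * ∏ i ∈ d.support, x i ^ d i := by
    simp_rw [mul_pow, Finset.prod_mul_distrib]
    congr 1
    have h3 : ∏ i ∈ d.support, ((u ^ w i : Dˣ) : D) ^ d i =
        ((∏ i ∈ d.support, u ^ (w i * d i) : Dˣ) : D) := by
      rw [Units.coe_prod]
      apply Finset.prod_congr rfl
      intro i _
      rw [zpow_mul, zpow_natCast, Units.val_pow_eq_pow_val]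
    rw [h3, prod_zpow', ← h1, Finsupp.weight_apply, Finsupp.sum]
    congr 3
    funext i
    rw [nsmul_eq_mul, mul_comm]
  rw [h2]
  ring

/-- one equation -/
abbrev one {τ : Type} (f : MvPolynomial τ k) : Unit → MvPolynomial τ k := fun _ => f

/-- scaling -/
theorem fibScale {τ : Type} {w : τ → ℤ} {f : MvPolynomial τ k} {N : ℕ}
    (hf : IsWeightedHomogeneous w f (N : ℤ)) {B : Type} [CommRing B] [Algebra k B] (u : Bˣ) :
    Nonempty (Fib (one f) B (fun _ => (u : B) ^ N) ≃ₐ[k] Fib (one f) B (fun _ => (1 : B))) := by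
  let b : Unit → B := fun _ => (u : B) ^ N
  let c : Unit → B := fun _ => (1 : B)
  -- the units
  let uc : (Fib (one f) B c)ˣ := Units.map (fc (one f) c : B →* _) u
  let ub : (Fib (one f) B b)ˣ := Units.map (fc (one f) b : B →* _) u⁻¹
  have huc : ∀ n : ℤ, ((uc ^ n : (Fib (one f) B c)ˣ) : Fib (one f) B c) =
      fc _ c ((u ^ n : Bˣ) : B) := by
    intro n
    rw [← map_zpow]
    rfl
  have hub : ∀ n : ℤ, ((ub ^ n : (Fib (one f) B b)ˣ) : Fib (one f) B b) =
      fc _ b (((u ^ n)⁻¹ : Bˣ) : B) := by
    intro n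
    rw [← map_zpow, inv_zpow]
    rfl
  let g : Fib (one f) B b →ₐ[k] Fib (one f) B c :=
    fibLift (fc _ c) (fun t => ((uc ^ w t : (Fib (one f) B c)ˣ) : Fib (one f) B c) * fv _ c t)
      (fun i => by
      have h := fib_rel (F := one f) (b := c) i
      rw [wh_aeval hf, h, map_one, mul_one, huc, zpow_natCast, Units.val_pow_eq_pow_val])
  have hgc : ∀ x, g (fc _ b x) = fc _ c x := fun x => fibLift_fc _ _ _ x
  have hgv : ∀ t, g (fv _ b t) = fc _ c ((u ^ w t : Bˣ) : B) * fv _ c t := fun t =>
    (fibLift_fv _ _ _ t).trans (by rw [huc])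
  let h : Fib (one f) B c →ₐ[k] Fib (one f) B b :=
    fibLift (fc _ b) (fun t => ((ub ^ w t : (Fib (one f) B b)ˣ) : Fib (one f) B b) * fv _ b t)
      (fun i => by
      have h := fib_rel (F := one f) (b := b) i
      rw [wh_aeval hf, h, hub, ← map_mul]
      congr 1
      change (((u ^ (N : ℤ))⁻¹ : Bˣ) : B) * (u : B) ^ N = 1
      rw [zpow_natCast, ← Units.val_pow_eq_pow_val, ← Units.val_mul, inv_mul_cancel, Units.val_one])
  have hhc : ∀ x, h (fc _ c x) = fc _ b x := fun x => fibLift_fc _ _ _ x
  have hhv : ∀ t, h (fv _ c t) = fc _ b (((u ^ w t)⁻¹ : Bˣ) : B) * fv _ b t := fun t =>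
    (fibLift_fv _ _ _ t).trans (by rw [hub])
  refine ⟨mkIso g h ?_ ?_⟩
  · apply fib_ext
    · intro x
      rw [AlgHom.comp_apply, hgc, hhc]
      rfl
    · intro t
      rw [AlgHom.comp_apply, hgv, map_mul, hhc, hhv, ← mul_assoc, ← map_mul, Units.mul_inv,
        map_one, one_mul]
      rfl
  · apply fib_ext
    · intro x
      rw [AlgHom.comp_apply, hhc, hgc]
      rfl
    · intro t
      rw [AlgHom.comp_apply, hhv, map_mul, hgc, hgv, ← mul_assoc, ← map_mul, Units.inv_mul,
        map_one, one_mul]
      rfl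

/-! ### finiteness and dimension -/

instance fib_ft {τ κ : Type} [Finite τ] (F : κ → MvPolynomial τ k) (B : Type) [CommRing B]
    [Algebra k B] [Algebra.FiniteType k B] (b : κ → B) : Algebra.FiniteType k (Fib F B b) :=
  have : Algebra.FiniteType k (MvPolynomial τ B) :=
    Algebra.FiniteType.trans (S := B) inferInstance inferInstance
  Algebra.FiniteType.of_surjective (fmk F b) fmk_surj

lemma kum_monic {N : ℕ} (hN : 0 < N) {B : Type} [CommRing B] (c : B) :
    (Polynomial.X ^ N - Polynomial.C (algebraMap B (Localization.Away c) c) :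
      Polynomial (Localization.Away c)).Monic := Polynomial.monic_X_pow_sub_C _ hN.ne'

lemma kum_finite {N : ℕ} (hN : 0 < N) {B : Type} [CommRing B] (c : B) :
    Module.Finite (Localization.Away c) (Kum N c) := (kum_monic hN c).finite_adjoinRoot

lemma kum_free {N : ℕ} (hN : 0 < N) {B : Type} [CommRing B] (c : B) :
    ∃ n : ℕ, 0 < n ∧ Nonempty (Kum N c ≃ₗ[Localization.Away c] (Fin n → Localization.Away c)) := by
  by_cases hs : Subsingleton (Localization.Away c)
  · have h1 : Subsingleton (Kum N c) := by
      have := Module.subsingleton (Localization.Away c) (Kum N c)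
      exact this
    exact ⟨1, one_pos, ⟨{ toFun := fun _ => 0
                          invFun := fun _ => 0
                          map_add' := fun _ _ => Subsingleton.elim _ _
                          map_smul' := fun _ _ => Subsingleton.elim _ _
                          left_inv := fun _ => Subsingleton.elim _ _
                          right_inv := fun _ => Subsingleton.elim _ _ }⟩⟩
  · have hn : Nontrivial (Localization.Away c) := not_subsingleton_iff_nontrivial.mp hs
    refine ⟨N, hN, ⟨?_⟩⟩
    have h := (AdjoinRoot.powerBasis' (kum_monic hN c)).basis.equivFun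
    have h2 : (AdjoinRoot.powerBasis' (kum_monic hN c)).dim = N := by
      rw [AdjoinRoot.powerBasis'_dim, Polynomial.natDegree_X_pow_sub_C]
    rw [h2] at h
    exact h

lemma kum_ft {N : ℕ} (hN : 0 < N) {B : Type} [CommRing B] [Algebra k B] [Algebra.FiniteType k B]
    (c : B) : Algebra.FiniteType k (Kum N c) := by
  have := kum_finite hN c
  have h1 : Algebra.FiniteType k (Localization.Away c) :=
    Algebra.FiniteType.trans (S := B) inferInstance inferInstance
  exact Algebra.FiniteType.trans (S := Localization.Away c) h1 inferInstance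

lemma dim_integral {A B : Type} [CommRing A] [CommRing B] [Algebra A B] [Algebra.IsIntegral A B] :
    ringKrullDim B ≤ ringKrullDim A := by
  refine Order.krullDim_le_of_strictMono (fun p : PrimeSpectrum B =>
    PrimeSpectrum.comap (algebraMap A B) p) ?_
  intro p q hpq
  exact Ideal.IsIntegral.comap_lt_comap (I := p.asIdeal) (J := q.asIdeal) hpq

lemma kum_dim {N : ℕ} (hN : 0 < N) {B : Type} [CommRing B] (c : B) :
    ringKrullDim (Kum N c) ≤ ringKrullDim B := by
  have := kum_finite hN c
  exact dim_integral.trans (dim_away c)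

end Pool.Agent.V5helper52.SF
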