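import Pool.Agent.V5helper52.SF.Blocks
import Pool.Agent.Z125.UN.MotUni

/-!
# Schur-finiteness of motives, products and finite coverings
-/

set_option autoImplicit false

open CategoryTheory MonoidalCategory AlgebraicGeometry Pool.Agent.TH137.DG Pool.Agent.Y116.UV
  Pool.Agent.Z125.UN

namespace Pool.Agent.V5helper52.SF

universe v u

variable {k : Type} [Field k] {C : Type u} [Category.{v} C] [MonoidalCategory C]
  [SymmetricCategory C] [Preadditive C] [Linear ℚ C] [Limits.HasZeroObject C] [HasShift C ℤ]
  [∀ n : ℤ, (shiftFunctor C n).Additive] [Pretriangulated C]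

/-- More standard properties of the category of geometric motives over a perfect field `k` with
rational coefficients.

* `tensor`: the tensor product of two Schur-finite objects is Schur-finite (Deligne);
* `kunneth`: `Mc (X × Y)` is `Mc X ⊗ Mc Y` (Voevodsky, Kelly), here for affine `X` and `Y`;
* `cover`: for a finite flat covering `p : Y → X` of constant degree `n > 0` the object `Mc X` is a
  direct summand of `Mc Y`, since the composition of the flat pull-back and the push-forward along
  `p` is the multiplication by `n`; here for `X = Spec A`, `Y = Spec B` with `B` free of rank `n`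
  over `A`. -/
structure IsMotives2 (D : Motives k C) : Prop extends IsMotives D where
  tensor : ∀ a b : C, IsSchurFinite a → IsSchurFinite b → IsSchurFinite (a ⊗ b)
  kunneth : ∀ (A B : Type) [CommRing A] [Algebra k A] [Algebra.FiniteType k A] [CommRing B]
    [Algebra k B] [Algebra.FiniteType k B],
    Nonempty (D.Mc (aff k (TensorProduct k A B)) ≅ D.Mc (aff k A) ⊗ D.Mc (aff k B))
  cover : ∀ (A B : Type) [CommRing A] [Algebra k A] [Algebra.FiniteType k A] [CommRing B]
    [Algebra k B] [Algebra A B] [IsScalarTower k A B] (n : ℕ), 0 < n →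
    Nonempty (B ≃ₗ[A] (Fin n → A)) →
    ∃ (s : D.Mc (aff k A) ⟶ D.Mc (aff k B)) (r : D.Mc (aff k B) ⟶ D.Mc (aff k A)), s ≫ r = 𝟙 _

/-- Schur-finiteness of the motive with compact support has the closure properties `Cls`. -/
theorem cls_sf [PerfectField k] {D : Motives k C} (hD : IsMotives2 D) :
    Cls True fun X : Sch k => IsSchurFinite (D.Mc X) where
  toBnd := bnd_sf hD.toIsMotives
  prod A B _ _ _ _ _ _ hA hB := by
    rw [sf_iso (hD.kunneth A B)]
    exact hD.tensor _ _ hA hB
  free A B _ _ _ _ _ _ _ n hn hb h := by
    obtain ⟨s, r, hs⟩ := hD.cover A B n hn hb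
    exact sf_retract s r hs h
  curve A _ _ _ hA := by
    refine dim_smooth (bnd_sf hD.toIsMotives) 1 (fun X hX hs hn => ?_) (aff k A) (ft_aff True) ?_
    · exact (hD.duality X hX hs).mp (hD.curves X hX hs (by exact_mod_cast hn))
    · rw [topDim_aff]
      exact_mod_cast hA

end Pool.Agent.V5helper52.SF
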