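import Pool.Agent.V5helper52.SF.Alg

/-!
# Quotients of polynomial rings and base change
-/

set_option autoImplicit false
set_option maxHeartbeats 400000

open MvPolynomial TensorProduct

namespace Pool.Agent.V5helper52.SF

variable {k : Type} [Field k] {τ : Type} {E E' D : Type} [CommRing E] [Algebra k E] [CommRing E']
  [Algebra k E'] [CommRing D] [Algebra k D]

/-- base change of an ideal -/
noncomputable def bc (f : E →ₐ[k] E') (J : Ideal (MvPolynomial τ E)) : Ideal (MvPolynomial τ E') :=
  J.map (MvPolynomial.map (f : E →+* E'))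

/-- the quotient ring -/
def Tq (J : Ideal (MvPolynomial τ E)) : Type := MvPolynomial τ E ⧸ J

noncomputable instance (J : Ideal (MvPolynomial τ E)) : CommRing (Tq J) :=
  inferInstanceAs (CommRing (_ ⧸ _))

noncomputable instance (J : Ideal (MvPolynomial τ E)) : Algebra E (Tq J) :=
  inferInstanceAs (Algebra E (_ ⧸ _))

noncomputable instance (J : Ideal (MvPolynomial τ E)) : Algebra k (Tq J) :=
  inferInstanceAs (Algebra k (_ ⧸ _))

instance (J : Ideal (MvPolynomial τ E)) : IsScalarTower k E (Tq J) :=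
  inferInstanceAs (IsScalarTower k E (_ ⧸ _))

variable (k) in
/-- the quotient map -/
noncomputable def tm (J : Ideal (MvPolynomial τ E)) : MvPolynomial τ E →ₐ[k] Tq J :=
  Ideal.Quotient.mkₐ k J

/-- the coordinates -/
noncomputable def tv (J : Ideal (MvPolynomial τ E)) (t : τ) : Tq J :=
  Ideal.Quotient.mk J (X t)

variable (k) in
/-- the constants -/
noncomputable def tc (J : Ideal (MvPolynomial τ E)) : E →ₐ[k] Tq J :=
  IsScalarTower.toAlgHom k E (Tq J)

variable {J : Ideal (MvPolynomial τ E)}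

lemma tm_surj : Function.Surjective (tm k J) := Ideal.Quotient.mk_surjective

lemma tm_X (t : τ) : tm k J (X t) = tv J t := rfl

lemma tm_C (c : E) : tm k J (C c) = tc k J c := rfl

lemma tm_zero {p : MvPolynomial τ E} (hp : p ∈ J) : tm k J p = 0 :=
  Ideal.Quotient.eq_zero_iff_mem.mpr hp

lemma t_ext {g h : Tq J →ₐ[k] D} (h1 : ∀ c, g (tc k J c) = h (tc k J c))
    (h2 : ∀ t, g (tv J t) = h (tv J t)) : g = h := by
  have h3 : g.comp (tm k J) = h.comp (tm k J) := poly_ext h1 h2
  ext a
  obtain ⟨p, rfl⟩ := tm_surj (k := k) a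
  exact DFunLike.congr_fun h3 p

/-- the universal property -/
noncomputable def tLift (J : Ideal (MvPolynomial τ E)) (φ : E →ₐ[k] D) (x : τ → D)
    (h : ∀ p ∈ J, aevalTower φ x p = 0) : Tq J →ₐ[k] D :=
  Ideal.Quotient.liftₐ J (aevalTower φ x) h

lemma tLift_mk (φ : E →ₐ[k] D) (x : τ → D) (h : ∀ p ∈ J, aevalTower φ x p = 0)
    (p : MvPolynomial τ E) : tLift J φ x h (tm k J p) = aevalTower φ x p := rfl

lemma tLift_tv (φ : E →ₐ[k] D) (x : τ → D) (h : ∀ p ∈ J, aevalTower φ x p = 0) (t : τ) :
    tLift J φ x h (tv J t) = x t := by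
  rw [← tm_X (k := k), tLift_mk, aevalTower_X]

lemma tLift_tc (φ : E →ₐ[k] D) (x : τ → D) (h : ∀ p ∈ J, aevalTower φ x p = 0) (c : E) :
    tLift J φ x h (tc k J c) = φ c := by
  rw [← tm_C, tLift_mk, aevalTower_C]

lemma aevalTower_bc (f : E →ₐ[k] E') (φ : E' →ₐ[k] D) (x : τ → D) (p : MvPolynomial τ E) :
    aevalTower φ x (MvPolynomial.map (f : E →+* E') p) = aevalTower (φ.comp f) x p := by
  induction p using MvPolynomial.induction_on with
  | C a =>
    rw [map_C, aevalTower_C, aevalTower_C]
    rfl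
  | add p q hp hq => rw [map_add, map_add, map_add, hp, hq]
  | mul_X p t hp => rw [map_mul, map_X, map_mul, map_mul, hp, aevalTower_X, aevalTower_X]

lemma bc_zero (f : E →ₐ[k] E') (φ : E' →ₐ[k] D) (x : τ → D)
    (h : ∀ p ∈ J, aevalTower (φ.comp f) x p = 0) : ∀ p ∈ bc f J, aevalTower φ x p = 0 := by
  intro p hp
  have h1 : bc f J ≤ RingHom.ker (aevalTower φ x : MvPolynomial τ E' →ₐ[k] D) := by
    rw [bc, Ideal.map_le_iff_le_comap]
    intro p hp
    change aevalTower φ x (MvPolynomial.map (f : E →+* E') p) = 0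
    rw [aevalTower_bc, h p hp]
  exact h1 hp

lemma comp_aevalTower (g : D →ₐ[k] E') (φ : E →ₐ[k] D) (x : τ → D) (p : MvPolynomial τ E) :
    g (aevalTower φ x p) = aevalTower (g.comp φ) (fun t => g (x t)) p := by
  induction p using MvPolynomial.induction_on with
  | C a =>
    rw [aevalTower_C, aevalTower_C]
    rfl
  | add p q hp hq => rw [map_add, map_add, map_add, hp, hq]
  | mul_X p t hp => rw [map_mul, map_mul, map_mul, hp, aevalTower_X, aevalTower_X]

lemma t_mk (p : MvPolynomial τ E) : tm k J p = aevalTower (tc k J) (tv J) p := by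
  have h : tm k J = aevalTower (tc k J) (tv J) := by
    apply poly_ext
    · intro c
      rw [aevalTower_C]
      rfl
    · intro t
      rw [aevalTower_X]
      rfl
  exact DFunLike.congr_fun h p

lemma t_zero (g : Tq J →ₐ[k] D) (p : MvPolynomial τ E) (hp : p ∈ J) :
    aevalTower (g.comp (tc k J)) (fun t => g (tv J t)) p = 0 := by
  rw [← comp_aevalTower, ← t_mk, tm_zero hp, map_zero]

lemma bc_comp {E'' : Type} [CommRing E''] [Algebra k E''] (g : E' →ₐ[k] E'') (f : E →ₐ[k] E')
    (J : Ideal (MvPolynomial τ E)) : bc g (bc f J) = bc (g.comp f) J := by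
  rw [bc, bc, bc, Ideal.map_map]
  congr 1
  ext p
  · simp
  · simp

lemma bc_span (f : E →ₐ[k] E') (s : Set (MvPolynomial τ E)) : bc f (Ideal.span s) =
    Ideal.span (MvPolynomial.map (f : E →+* E') '' s) := by
  rw [bc, Ideal.map_span]

/-- the map of the quotients -/
noncomputable def tMap (f : E →ₐ[k] E') (J : Ideal (MvPolynomial τ E)) :
    Tq J →ₐ[k] Tq (bc f J) :=
  tLift J ((tc k (bc f J)).comp f) (tv (bc f J)) (fun p hp => by
    have h : MvPolynomial.map (f : E →+* E') p ∈ bc f J := Ideal.mem_map_of_mem _ hp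
    rw [← aevalTower_bc, ← t_mk, tm_zero h])

lemma tMap_tc (f : E →ₐ[k] E') (c : E) : tMap f J (tc k J c) = tc k (bc f J) (f c) := by
  rw [tMap, tLift_tc, AlgHom.comp_apply]

lemma tMap_tv (f : E →ₐ[k] E') (t : τ) : tMap f J (tv J t) = tv (bc f J) t := by
  rw [tMap, tLift_tv]

/-- base change to a quotient -/
theorem tQuot (p : Ideal E) : ∃ e : (Tq J ⧸ p.map (tc k J)) ≃ₐ[k]
    Tq (bc (Ideal.Quotient.mkₐ k p) J), ∀ c, e (Ideal.Quotient.mk _ (tc k J c)) =
    tc k _ (Ideal.Quotient.mk p c) := by
  let m := Ideal.Quotient.mkₐ k p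
  let m' := Ideal.Quotient.mkₐ k (p.map (tc k J))
  have hm : ∀ c ∈ p, m c = 0 := fun c hc => Ideal.Quotient.eq_zero_iff_mem.mpr hc
  let f : (Tq J ⧸ p.map (tc k J)) →ₐ[k] Tq (bc m J) :=
    Ideal.Quotient.liftₐ _ (tMap m J) (by
      intro a ha
      have h1 : p.map (tc k J) ≤ RingHom.ker (tMap m J) := by
        rw [Ideal.map_le_iff_le_comap]
        intro c hc
        change tMap m J (tc k J c) = 0
        rw [tMap_tc, hm c hc, map_zero]
      exact h1 ha)
  have hf : ∀ x, f (m' x) = tMap m J x := fun x => rfl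
  let g1 : (E ⧸ p) →ₐ[k] (Tq J ⧸ p.map (tc k J)) :=
    Ideal.Quotient.liftₐ _ (m'.comp (tc k J)) (fun a ha =>
      Ideal.Quotient.eq_zero_iff_mem.mpr (Ideal.mem_map_of_mem _ ha))
  have hg1 : g1.comp m = m'.comp (tc k J) := rfl
  let g : Tq (bc m J) →ₐ[k] (Tq J ⧸ p.map (tc k J)) :=
    tLift _ g1 (fun t => m' (tv J t)) (bc_zero _ _ _ (fun q hq => by
      rw [hg1]
      exact t_zero m' q hq))
  have hgc : ∀ x, g (tc k _ x) = g1 x := fun x => tLift_tc _ _ _ x
  have hgv : ∀ t, g (tv _ t) = m' (tv J t) := fun t => tLift_tv _ _ _ t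
  refine ⟨mkIso f g ?_ ?_, fun c => tMap_tc m c⟩
  · apply Ideal.Quotient.algHom_ext
    apply t_ext
    · intro c
      change g (f (m' (tc k J c))) = m' (tc k J c)
      rw [hf, tMap_tc, hgc]
      rfl
    · intro t
      change g (f (m' (tv J t))) = m' (tv J t)
      rw [hf, tMap_tv, hgv]
  · apply t_ext
    · intro c
      obtain ⟨c, rfl⟩ := Ideal.Quotient.mk_surjective c
      rw [AlgHom.comp_apply, hgc]
      change f (m' (tc k J c)) = tc k _ (m c)
      rw [hf, tMap_tc]
    · intro t
      rw [AlgHom.comp_apply, hgv, hf, tMap_tv]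
      rfl

/-- base change to a localisation -/
theorem tAway (w : E) : Nonempty (Localization.Away (tc k J w) ≃ₐ[k]
    Tq (bc (IsScalarTower.toAlgHom k E (Localization.Away w)) J)) := by
  let m := IsScalarTower.toAlgHom k E (Localization.Away w)
  let m' := IsScalarTower.toAlgHom k (Tq J) (Localization.Away (tc k J w))
  have hm : IsUnit (m w) := IsLocalization.Away.algebraMap_isUnit w
  have hm' : IsUnit (m' (tc k J w)) := IsLocalization.Away.algebraMap_isUnit (tc k J w)
  let f : Localization.Away (tc k J w) →ₐ[k] Tq (bc m J) :=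
    IsLocalization.liftAlgHom (M := Submonoid.powers (tc k J w)) (f := tMap m J) (by
      rintro ⟨_, n, rfl⟩
      change IsUnit (tMap m J (tc k J w ^ n))
      rw [map_pow, tMap_tc]
      exact (hm.map _).pow n)
  have hf : ∀ x, f (m' x) = tMap m J x := fun x => IsLocalization.lift_eq _ _
  let g1 : Localization.Away w →ₐ[k] Localization.Away (tc k J w) :=
    IsLocalization.liftAlgHom (M := Submonoid.powers w) (f := m'.comp (tc k J)) (by
      rintro ⟨_, n, rfl⟩
      change IsUnit (m' (tc k J (w ^ n)))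
      rw [map_pow, map_pow]
      exact hm'.pow n)
  have hg1 : ∀ x, g1 (m x) = m' (tc k J x) := fun x => IsLocalization.lift_eq _ _
  have hg1' : g1.comp m = m'.comp (tc k J) := AlgHom.ext hg1
  let g : Tq (bc m J) →ₐ[k] Localization.Away (tc k J w) :=
    tLift _ g1 (fun t => m' (tv J t)) (bc_zero _ _ _ (fun q hq => by
      rw [hg1']
      exact t_zero m' q hq))
  have hgc : ∀ x, g (tc k _ x) = g1 x := fun x => tLift_tc _ _ _ x
  have hgv : ∀ t, g (tv _ t) = m' (tv J t) := fun t => tLift_tv _ _ _ t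
  refine ⟨mkIso f g ?_ ?_⟩
  · apply AlgHom.coe_ringHom_injective
    refine IsLocalization.ringHom_ext (Submonoid.powers (tc k J w)) ?_
    have h : (g.comp f).comp m' = m' := by
      apply t_ext
      · intro c
        change g (f (m' (tc k J c))) = m' (tc k J c)
        rw [hf, tMap_tc, hgc, hg1]
      · intro t
        change g (f (m' (tv J t))) = m' (tv J t)
        rw [hf, tMap_tv, hgv]
    ext x
    exact DFunLike.congr_fun h x
  · apply t_ext
    · intro c
      rw [AlgHom.comp_apply, hgc]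
      have h : f.comp g1 = tc k (bc m J) := by
        apply AlgHom.coe_ringHom_injective
        refine IsLocalization.ringHom_ext (Submonoid.powers w) ?_
        ext x
        change f (g1 (m x)) = tc k (bc m J) (m x)
        rw [hg1, hf, tMap_tc]
      exact DFunLike.congr_fun h c
    · intro t
      rw [AlgHom.comp_apply, hgv, hf, tMap_tv]
      rfl

/-- localisations of isomorphic algebras -/
theorem awayIso {A B : Type} [CommRing A] [Algebra k A] [CommRing B] [Algebra k B]
    (e : A ≃ₐ[k] B) (a : A) :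
    Nonempty (Localization.Away a ≃ₐ[k] Localization.Away (e a)) := by
  let m := IsScalarTower.toAlgHom k A (Localization.Away a)
  let n := IsScalarTower.toAlgHom k B (Localization.Away (e a))
  have hm : IsUnit (m a) := IsLocalization.Away.algebraMap_isUnit _
  have hn : IsUnit (n (e a)) := IsLocalization.Away.algebraMap_isUnit _
  let f : Localization.Away a →ₐ[k] Localization.Away (e a) :=
    IsLocalization.liftAlgHom (M := Submonoid.powers a) (f := n.comp e.toAlgHom) (by
      rintro ⟨_, i, rfl⟩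
      change IsUnit (n (e (a ^ i)))
      rw [map_pow, map_pow]
      exact hn.pow i)
  have hf : ∀ x, f (m x) = n (e x) := fun x => IsLocalization.lift_eq _ _
  let g : Localization.Away (e a) →ₐ[k] Localization.Away a :=
    IsLocalization.liftAlgHom (M := Submonoid.powers (e a)) (f := m.comp e.symm.toAlgHom) (by
      rintro ⟨_, i, rfl⟩
      change IsUnit (m (e.symm (e a ^ i)))
      rw [map_pow, map_pow, AlgEquiv.symm_apply_apply]
      exact hm.pow i)
  have hg : ∀ x, g (n x) = m (e.symm x) := fun x => IsLocalization.lift_eq _ _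
  refine ⟨mkIso f g ?_ ?_⟩
  · apply AlgHom.coe_ringHom_injective
    refine IsLocalization.ringHom_ext (Submonoid.powers a) ?_
    ext x
    change g (f (m x)) = m x
    rw [hf, hg, AlgEquiv.symm_apply_apply]
  · apply AlgHom.coe_ringHom_injective
    refine IsLocalization.ringHom_ext (Submonoid.powers (e a)) ?_
    ext x
    change f (g (n x)) = n x
    rw [hg, hf, AlgEquiv.apply_symm_apply]

/-- base change to an algebra -/
theorem tTens [Algebra E E'] [IsScalarTower k E E'] :
    Nonempty ((Tq J ⊗[E] E') ≃ₐ[k] Tq (bc (IsScalarTower.toAlgHom k E E') J)) := by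
  let m := IsScalarTower.toAlgHom k E E'
  let T := Tq J
  let T' := Tq (bc m J)
  let _ : Algebra E T' := ((algebraMap E' T').comp (algebraMap E E')).toAlgebra
  have : IsScalarTower k E T' := IsScalarTower.of_algebraMap_eq fun x => by
    change algebraMap k T' x = algebraMap E' T' (algebraMap E E' (algebraMap k E x))
    rw [← IsScalarTower.algebraMap_apply k E E', ← IsScalarTower.algebraMap_apply k E' T']
  let a1 : T →ₐ[E] T' := { (tMap m J : T →+* T') with
    commutes' := fun c => tMap_tc m c }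
  have ha1 : ∀ x, a1 x = tMap m J x := fun x => rfl
  let a2 : E' →ₐ[E] T' := { (tc k (bc m J) : E' →+* T') with
    commutes' := fun c => rfl }
  have ha2 : ∀ x, a2 x = tc k (bc m J) x := fun x => rfl
  let f : (T ⊗[E] E') →ₐ[k] T' := (Algebra.TensorProduct.productMap a1 a2).restrictScalars k
  have hf : ∀ x y, f (x ⊗ₜ[E] y) = a1 x * a2 y := fun x y =>
    Algebra.TensorProduct.productMap_apply_tmul a1 a2 x y
  let b1 : T →ₐ[k] (T ⊗[E] E') :=
    (Algebra.TensorProduct.includeLeft (R := E) (S := E) (A := T) (B := E')).restrictScalars k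
  have hb1 : ∀ x, b1 x = x ⊗ₜ[E] 1 := fun x => rfl
  let b2 : E' →ₐ[k] (T ⊗[E] E') :=
    (Algebra.TensorProduct.includeRight (R := E) (A := T) (B := E')).restrictScalars k
  have hb2 : ∀ x, b2 x = 1 ⊗ₜ[E] x := fun x => rfl
  have hb : b2.comp m = b1.comp (tc k J) := by
    ext c
    change (1 : T) ⊗ₜ[E] (algebraMap E E' c) = (algebraMap E T c) ⊗ₜ[E] 1
    rw [Algebra.algebraMap_eq_smul_one, Algebra.algebraMap_eq_smul_one, TensorProduct.smul_tmul]
  let g : T' →ₐ[k] (T ⊗[E] E') := tLift _ b2 (fun t => b1 (tv J t)) (bc_zero _ _ _ (fun q hq => by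
    rw [hb]
    exact t_zero b1 q hq))
  have hgc : ∀ x, g (tc k _ x) = b2 x := fun x => tLift_tc _ _ _ x
  have hgv : ∀ t, g (tv _ t) = b1 (tv J t) := fun t => tLift_tv _ _ _ t
  have hg1 : g.comp (tMap m J) = b1 := by
    apply t_ext
    · intro c
      rw [AlgHom.comp_apply, tMap_tc, hgc]
      exact DFunLike.congr_fun hb c
    · intro t
      rw [AlgHom.comp_apply, tMap_tv, hgv]
  refine ⟨mkIso f g ?_ ?_⟩
  · ext z
    change g (f z) = z
    induction z using TensorProduct.induction_on with
    | zero => rw [map_zero, map_zero]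
    | add x y hx hy => rw [map_add, map_add, hx, hy]
    | tmul x y =>
      rw [hf, map_mul, ha1, ha2, hgc]
      have h := DFunLike.congr_fun hg1 x
      change g (tMap m J x) = b1 x at h
      rw [h, hb1, hb2, Algebra.TensorProduct.tmul_mul_tmul, mul_one, one_mul]
  · apply t_ext
    · intro c
      rw [AlgHom.comp_apply, hgc, hb2, hf, map_one, one_mul, ha2]
      rfl
    · intro t
      rw [AlgHom.comp_apply, hgv, hb1, hf, map_one, mul_one, ha1, tMap_tv]
      rfl

end Pool.Agent.V5helper52.SF
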