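import Mathlib

/-!
# Polynomials of degree at most two
-/

set_option autoImplicit false

open MvPolynomial

namespace Pool.Agent.V5helper52.SF

variable {E : Type} [CommRing E] {M : ℕ}

/-- more variables -/
noncomputable abbrev up (p : MvPolynomial (Fin M) E) : MvPolynomial (Fin (M + 1)) E :=
  rename Fin.succ p

lemma fs_up (p : MvPolynomial (Fin M) E) : finSuccEquiv E M (up p) = Polynomial.C p := by
  induction p using MvPolynomial.induction_on with
  | C a =>
    rw [up, rename_C]
    have h := (finSuccEquiv E M).commutes a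
    exact h
  | add p q hp hq => rw [up, map_add, map_add, map_add, ← hp, ← hq]
  | mul_X p t hp => rw [up, map_mul, map_mul, map_mul, ← hp, rename_X, finSuccEquiv_X_succ]

lemma fs_C (a : E) : finSuccEquiv E M (C a) = Polynomial.C (C a) := by
  have h := fs_up (M := M) (C a : MvPolynomial (Fin M) E)
  rw [up, rename_C] at h
  exact h

lemma up_deg (p : MvPolynomial (Fin M) E) : (up p).totalDegree ≤ p.totalDegree :=
  totalDegree_rename_le _ _

lemma fs_coeff_deg (q : MvPolynomial (Fin (M + 1)) E) {d i : ℕ} (hq : q.totalDegree ≤ d) :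
    (i ≤ d → ((finSuccEquiv E M q).coeff i).totalDegree ≤ d - i) ∧
      (d < i → (finSuccEquiv E M q).coeff i = 0) := by
  by_cases h : (finSuccEquiv E M q).coeff i = 0
  · rw [h]
    exact ⟨fun _ => by rw [totalDegree_zero]; omega, fun _ => rfl⟩
  · have h1 := totalDegree_coeff_finSuccEquiv_add_le q i h
    exact ⟨fun _ => by omega, fun _ => by omega⟩

/-- the decomposition of a polynomial of degree at most two -/
lemma dec2 (q : MvPolynomial (Fin (M + 1)) E) (hq : q.totalDegree ≤ 2) :
    ∃ (α : E) (β γ : MvPolynomial (Fin M) E), β.totalDegree ≤ 1 ∧ γ.totalDegree ≤ 2 ∧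
      q = C α * X 0 ^ 2 + up β * X 0 + up γ := by
  let s := finSuccEquiv E M q
  have h2 := (fs_coeff_deg q (i := 2) hq).1 le_rfl
  have h1 := (fs_coeff_deg q (i := 1) hq).1 (by omega)
  have h0 := (fs_coeff_deg q (i := 0) hq).1 (by omega)
  have h3 : s.natDegree < 3 := by
    rw [Nat.lt_succ_iff, Polynomial.natDegree_le_iff_coeff_eq_zero]
    intro i hi
    exact (fs_coeff_deg q (i := i) hq).2 hi
  have h4 : s.coeff 2 = C (coeff 0 (s.coeff 2)) :=
    totalDegree_eq_zero_iff_eq_C.mp (Nat.le_zero.mp h2)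
  refine ⟨coeff 0 (s.coeff 2), s.coeff 1, s.coeff 0, h1, h0, ?_⟩
  apply (finSuccEquiv E M).injective
  rw [map_add, map_add, map_mul, map_mul, map_pow, fs_up, fs_up, fs_C, finSuccEquiv_X_zero, ← h4]
  have h5 := Polynomial.as_sum_range' s 3 h3
  rw [Finset.sum_range_succ, Finset.sum_range_succ, Finset.sum_range_succ, Finset.sum_range_zero,
    zero_add] at h5
  simp_rw [← Polynomial.C_mul_X_pow_eq_monomial] at h5
  change s = _
  refine h5.trans ?_
  ring

/-- the decomposition of a polynomial of degree at most one -/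
lemma dec1 (q : MvPolynomial (Fin (M + 1)) E) (hq : q.totalDegree ≤ 1) :
    ∃ β : MvPolynomial (Fin M) E, β.totalDegree ≤ 1 ∧
      q = C (coeff (Finsupp.single 0 1) q) * X 0 + up β := by
  let s := finSuccEquiv E M q
  have h1 := (fs_coeff_deg q (i := 1) hq).1 (by omega)
  have h0 := (fs_coeff_deg q (i := 0) hq).1 (by omega)
  have h3 : s.natDegree < 2 := by
    rw [Nat.lt_succ_iff, Polynomial.natDegree_le_iff_coeff_eq_zero]
    intro i hi
    exact (fs_coeff_deg q (i := i) hq).2 hi
  have h4 : s.coeff 1 = C (coeff 0 (s.coeff 1)) :=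
    totalDegree_eq_zero_iff_eq_C.mp (Nat.le_zero.mp h1)
  have h6 : coeff 0 (s.coeff 1) = coeff (Finsupp.single 0 1) q := by
    have h7 := finSuccEquiv_coeff_coeff (0 : Fin M →₀ ℕ) q 1
    have h8 : (Finsupp.cons 1 (0 : Fin M →₀ ℕ)) = Finsupp.single 0 1 := by
      ext i
      refine Fin.cases ?_ (fun j => ?_) i
      · rw [Finsupp.cons_zero, Finsupp.single_eq_same]
      · rw [Finsupp.cons_succ, Finsupp.single_eq_of_ne (Fin.succ_ne_zero j)]
        rfl
    rw [h8] at h7
    exact h7
  refine ⟨s.coeff 0, h0, ?_⟩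
  apply (finSuccEquiv E M).injective
  rw [map_add, map_mul, fs_up, fs_C, finSuccEquiv_X_zero, ← h6, ← h4]
  have h5 := Polynomial.as_sum_range' s 2 h3
  rw [Finset.sum_range_succ, Finset.sum_range_succ, Finset.sum_range_zero, zero_add] at h5
  simp_rw [← Polynomial.C_mul_X_pow_eq_monomial] at h5
  change s = _
  refine h5.trans ?_
  ring

/-- A polynomial of degree at most one without linear coefficients is constant. -/
lemma dec0 (q : MvPolynomial (Fin M) E) (hq : q.totalDegree ≤ 1)
    (h : ∀ j, coeff (Finsupp.single j 1) q = 0) : q = C (coeff 0 q) := by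
  rw [← totalDegree_eq_zero_iff_eq_C]
  by_contra hne
  have h1 : q.totalDegree = 1 := by omega
  have h0 : q ≠ 0 := by
    rintro rfl
    rw [totalDegree_zero] at h1
    omega
  obtain ⟨m, hm, hd⟩ := Finset.exists_mem_eq_sup q.support (support_nonempty.mpr h0)
    (fun s => s.sum fun _ e => e)
  have hd1 : (m.sum fun _ e => e) = 1 := by
    rw [← hd]
    exact h1
  obtain ⟨j, hj⟩ := (Finsupp.sum_eq_one_iff m).mp hd1
  rw [hj, mem_support_iff] at hm
  exact hm (h j)

end Pool.Agent.V5helper52.SF
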