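import Pool.Agent.V5helper52.SF.QAlg
import Pool.Agent.V5helper52.SF.QDeg
import Pool.Agent.V5helper52.SF.Main

/-!
# Equations which are linear in one variable, and quadratic extensions
-/

set_option autoImplicit false
set_option maxHeartbeats 400000

open MvPolynomial TensorProduct

namespace Pool.Agent.V5helper52.SF

variable {k : Type} [Field k]

section

variable {τ σ : Type} {E D : Type} [CommRing E] [Algebra k E] [CommRing D] [Algebra k D]

/-- an isomorphism of the polynomial rings -/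
theorem tIso (e : MvPolynomial τ E ≃ₐ[E] MvPolynomial σ E) (s : Set (MvPolynomial τ E)) :
    Nonempty (Tq (Ideal.span s) ≃ₐ[k] Tq (Ideal.span (e '' s))) := by
  refine ⟨Ideal.quotientEquivAlg _ _ (e.restrictScalars k) ?_⟩
  rw [Ideal.map_span]
  rfl

lemma span_zero (φ : E →ₐ[k] D) (x : τ → D) (s : Set (MvPolynomial τ E))
    (h : ∀ p ∈ s, aevalTower φ x p = 0) : ∀ p ∈ Ideal.span s, aevalTower φ x p = 0 := by
  intro p hp
  have h1 : Ideal.span s ≤ RingHom.ker (aevalTower φ x : MvPolynomial τ E →ₐ[k] D) := by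
    rw [Ideal.span_le]
    exact h
  exact h1 hp

lemma aevalTower_up {M : ℕ} (φ : E →ₐ[k] D) (x : Fin (M + 1) → D) (p : MvPolynomial (Fin M) E) :
    aevalTower φ x (up p) = aevalTower φ (fun j => x (Fin.succ j)) p := by
  induction p using MvPolynomial.induction_on with
  | C a => rw [up, rename_C, aevalTower_C, aevalTower_C]
  | add p q hp hq => rw [up, map_add, map_add, map_add, ← hp, ← hq]
  | mul_X p t hp => rw [up, map_mul, map_mul, map_mul, ← hp, rename_X, aevalTower_X, aevalTower_X]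

/-- Elimination of a variable. -/
theorem tElim {M : ℕ} (u : Eˣ) (ℓ β γ : MvPolynomial (Fin M) E) (α : E) :
    Nonempty (Tq (Ideal.span {C (u : E) * X 0 + up ℓ, C α * X 0 ^ 2 + up β * X 0 + up γ}) ≃ₐ[k]
      Tq (Ideal.span {C α * (-(C (↑u⁻¹ : E) * ℓ)) ^ 2 + β * (-(C (↑u⁻¹ : E) * ℓ)) + γ})) := by
  set v : MvPolynomial (Fin M) E := -(C (↑u⁻¹ : E) * ℓ) with hv
  set J : Ideal (MvPolynomial (Fin (M + 1)) E) :=
    Ideal.span {C (u : E) * X 0 + up ℓ, C α * X 0 ^ 2 + up β * X 0 + up γ} with hJ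
  set J' : Ideal (MvPolynomial (Fin M) E) := Ideal.span {C α * v ^ 2 + β * v + γ} with hJ'
  -- the relations
  have hr1 : tc k J u * tv J 0 + aevalTower (tc k J) (fun j => tv J (Fin.succ j)) ℓ = 0 := by
    have h : tm k J (C (u : E) * X 0 + up ℓ) = 0 :=
      tm_zero (Ideal.subset_span (Set.mem_insert _ _))
    rw [t_mk, map_add, map_mul, aevalTower_C, aevalTower_X, aevalTower_up] at h
    exact h
  have hr2 : tc k J α * tv J 0 ^ 2 + aevalTower (tc k J) (fun j => tv J (Fin.succ j)) β * tv J 0 +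
      aevalTower (tc k J) (fun j => tv J (Fin.succ j)) γ = 0 := by
    have h : tm k J (C α * X 0 ^ 2 + up β * X 0 + up γ) = 0 :=
      tm_zero (Ideal.subset_span (Set.mem_insert_of_mem _ rfl))
    rw [t_mk, map_add, map_add, map_mul, map_mul, map_pow, aevalTower_C, aevalTower_X,
      aevalTower_up, aevalTower_up] at h
    exact h
  have hr3 : tc k J' α * tm k J' v ^ 2 + tm k J' β * tm k J' v + tm k J' γ = 0 := by
    have h : tm k J' (C α * v ^ 2 + β * v + γ) = 0 := tm_zero (Ideal.subset_span rfl)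
    rw [map_add, map_add, map_mul, map_mul, map_pow, tm_C] at h
    exact h
  have hu : (↑u⁻¹ : E) * (u : E) = 1 := Units.inv_mul u
  have hv0 : aevalTower (tc k J) (fun j => tv J (Fin.succ j)) v = tv J 0 := by
    rw [hv, map_neg, map_mul, aevalTower_C]
    have h1 : tc k J (↑u⁻¹ : E) * tc k J (u : E) = 1 := by rw [← map_mul, hu, map_one]
    linear_combination (-(tc k J (↑u⁻¹ : E))) * hr1 + (tv J 0) * h1
  let x : Fin (M + 1) → Tq J' := Fin.cons (tm k J' v) (tv J')
  have hxs : (fun j => x (Fin.succ j)) = tv J' := funext fun j => rfl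
  have hx0 : x 0 = tm k J' v := rfl
  let f : Tq J →ₐ[k] Tq J' := tLift J (tc k J') x (span_zero _ _ _ (by
    rintro p (rfl | rfl)
    · rw [map_add, map_mul, aevalTower_C, aevalTower_X, aevalTower_up, hxs, hx0, ← t_mk, hv,
        map_neg, map_mul, tm_C]
      have h1 : tc k J' (u : E) * tc k J' (↑u⁻¹ : E) = 1 := by
        rw [← map_mul, Units.mul_inv, map_one]
      linear_combination (-(tm k J' ℓ)) * h1
    · rw [map_add, map_add, map_mul, map_mul, map_pow, aevalTower_C, aevalTower_X,
        aevalTower_up, aevalTower_up, hxs, hx0, ← t_mk, ← t_mk]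
      exact hr3))
  let g : Tq J' →ₐ[k] Tq J := tLift J' (tc k J) (fun j => tv J (Fin.succ j)) (span_zero _ _ _ (by
    rintro p rfl
    rw [map_add, map_add, map_mul, map_mul, map_pow, aevalTower_C, hv0]
    exact hr2))
  have hfc : ∀ c, f (tc k J c) = tc k J' c := fun c => tLift_tc _ _ _ c
  have hfv : ∀ t, f (tv J t) = x t := fun t => tLift_tv _ _ _ t
  have hgc : ∀ c, g (tc k J' c) = tc k J c := fun c => tLift_tc _ _ _ c
  have hgv : ∀ t, g (tv J' t) = tv J (Fin.succ t) := fun t => tLift_tv _ _ _ t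
  refine ⟨mkIso f g ?_ ?_⟩
  · apply t_ext
    · intro c
      rw [AlgHom.comp_apply, hfc, hgc]
      rfl
    · intro t
      rw [AlgHom.comp_apply, hfv]
      refine Fin.cases ?_ (fun j => ?_) t
      · change g (tm k J' v) = tv J 0
        have h : g (tm k J' v) = aevalTower (tc k J) (fun j => tv J (Fin.succ j)) v :=
          tLift_mk _ _ _ _
        rw [h, hv0]
      · change g (tv J' j) = tv J (Fin.succ j)
        exact hgv j
  · apply t_ext
    · intro c
      rw [AlgHom.comp_apply, hgc, hfc]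
      rfl
    · intro t
      rw [AlgHom.comp_apply, hgv, hfv]
      rfl

end

/-! ### an equation linear in one variable -/

/-- The ring `R[X] / (ℓ X + r)`. -/
def Lq {R : Type} [CommRing R] (ℓ r : R) : Type :=
  Polynomial R ⧸ Ideal.span {Polynomial.C ℓ * Polynomial.X + Polynomial.C r}

section lin

variable {R D : Type} [CommRing R] [Algebra k R] [CommRing D] [Algebra k D] {ℓ r : R}

noncomputable instance : CommRing (Lq ℓ r) := inferInstanceAs (CommRing (_ ⧸ _))

noncomputable instance : Algebra R (Lq ℓ r) := inferInstanceAs (Algebra R (_ ⧸ _))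

noncomputable instance : Algebra k (Lq ℓ r) := inferInstanceAs (Algebra k (_ ⧸ _))

instance : IsScalarTower k R (Lq ℓ r) := inferInstanceAs (IsScalarTower k R (_ ⧸ _))

/-- the variable -/
noncomputable def lv (ℓ r : R) : Lq ℓ r := Ideal.Quotient.mk _ Polynomial.X

variable (k) in
/-- the constants -/
noncomputable def lc (ℓ r : R) : R →ₐ[k] Lq ℓ r := IsScalarTower.toAlgHom k R (Lq ℓ r)

variable (k) in
/-- the quotient map -/
noncomputable def lm (ℓ r : R) : Polynomial R →ₐ[k] Lq ℓ r := Ideal.Quotient.mkₐ k _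

lemma lm_surj : Function.Surjective (lm k ℓ r) := Ideal.Quotient.mk_surjective

lemma l_rel : lc k ℓ r ℓ * lv ℓ r + lc k ℓ r r = 0 :=
  Ideal.Quotient.eq_zero_iff_mem.mpr (Ideal.subset_span rfl)

lemma l_ext {g h : Lq ℓ r →ₐ[k] D} (h1 : ∀ c, g (lc k ℓ r c) = h (lc k ℓ r c))
    (h2 : g (lv ℓ r) = h (lv ℓ r)) : g = h := by
  ext a
  obtain ⟨p, rfl⟩ := lm_surj (k := k) a
  induction p using Polynomial.induction_on' with
  | add p q hp hq => rw [map_add, map_add, map_add, hp, hq]
  | monomial n c =>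
    rw [← Polynomial.C_mul_X_pow_eq_monomial, map_mul, map_pow]
    change g (lc k ℓ r c * lv ℓ r ^ n) = h (lc k ℓ r c * lv ℓ r ^ n)
    rw [map_mul, map_mul, map_pow, map_pow, h1, h2]

/-- the universal property -/
noncomputable def lLift (φ : R →ₐ[k] D) (x : D) (h : φ ℓ * x + φ r = 0) : Lq ℓ r →ₐ[k] D :=
  Ideal.Quotient.liftₐ _ ({ Polynomial.eval₂RingHom (φ : R →+* D) x with
    commutes' := fun c => by
      change Polynomial.eval₂ (φ : R →+* D) x (Polynomial.C (algebraMap k R c)) = _
      rw [Polynomial.eval₂_C]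
      exact φ.commutes c } : Polynomial R →ₐ[k] D) (by
    intro a ha
    rw [Ideal.mem_span_singleton] at ha
    obtain ⟨b, rfl⟩ := ha
    change Polynomial.eval₂ (φ : R →+* D) x _ = 0
    rw [Polynomial.eval₂_mul, Polynomial.eval₂_add, Polynomial.eval₂_mul, Polynomial.eval₂_C,
      Polynomial.eval₂_C, Polynomial.eval₂_X]
    change (φ ℓ * x + φ r) * _ = 0
    rw [h, zero_mul])

lemma lLift_lv (φ : R →ₐ[k] D) (x : D) (h : φ ℓ * x + φ r = 0) : lLift φ x h (lv ℓ r) = x := by
  change Polynomial.eval₂ (φ : R →+* D) x Polynomial.X = x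
  rw [Polynomial.eval₂_X]

lemma lLift_lc (φ : R →ₐ[k] D) (x : D) (h : φ ℓ * x + φ r = 0) (c : R) :
    lLift φ x h (lc k ℓ r c) = φ c := by
  change Polynomial.eval₂ (φ : R →+* D) x (Polynomial.C c) = φ c
  rw [Polynomial.eval₂_C]
  rfl

/-- the closed part -/
theorem lClosed : Nonempty ((Lq ℓ r ⧸ Ideal.span {lc k ℓ r ℓ}) ≃ₐ[k]
    MvPolynomial Unit (R ⧸ Ideal.span {ℓ, r})) := by
  let I : Ideal R := Ideal.span {ℓ, r}
  have hI1 : Ideal.Quotient.mk I ℓ = 0 :=
    Ideal.Quotient.eq_zero_iff_mem.mpr (Ideal.subset_span (Set.mem_insert _ _))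
  have hI2 : Ideal.Quotient.mk I r = 0 :=
    Ideal.Quotient.eq_zero_iff_mem.mpr (Ideal.subset_span (Set.mem_insert_of_mem _ rfl))
  let φ : R →ₐ[k] MvPolynomial Unit (R ⧸ I) :=
    (IsScalarTower.toAlgHom k (R ⧸ I) _).comp (Ideal.Quotient.mkₐ k I)
  have hφ : ∀ c, φ c = C (Ideal.Quotient.mk I c) := fun c => rfl
  let f1 : Lq ℓ r →ₐ[k] MvPolynomial Unit (R ⧸ I) := lLift φ (X ()) (by
    rw [hφ, hφ, hI1, hI2, C_0, zero_mul, add_zero])
  have hf1c : ∀ c, f1 (lc k ℓ r c) = φ c := fun c => lLift_lc _ _ _ c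
  have hf1v : f1 (lv ℓ r) = X () := lLift_lv _ _ _
  let f := qLift f1 (c := lc k ℓ r ℓ) (by rw [hf1c, hφ, hI1, C_0])
  let m := qm k (lc k ℓ r ℓ)
  have hf : ∀ x, f (m x) = f1 x := fun x => rfl
  let g1 : (R ⧸ I) →ₐ[k] (Lq ℓ r ⧸ Ideal.span {lc k ℓ r ℓ}) :=
    Ideal.Quotient.liftₐ I (m.comp (lc k ℓ r)) (by
      intro a ha
      have h1 : I ≤ RingHom.ker (m.comp (lc k ℓ r)) := by
        rw [Ideal.span_le]
        have h2 : m (lc k ℓ r ℓ) = 0 := qm_self _
        rintro p (rfl | rfl)
        · exact h2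
        · have h3 := congrArg m (l_rel (k := k) (ℓ := ℓ) (r := p))
          rw [map_add, map_mul, h2, zero_mul, zero_add, map_zero] at h3
          exact h3
      exact h1 ha)
  have hg1 : ∀ c, g1 (Ideal.Quotient.mk I c) = m (lc k ℓ r c) := fun c => rfl
  let g : MvPolynomial Unit (R ⧸ I) →ₐ[k] (Lq ℓ r ⧸ Ideal.span {lc k ℓ r ℓ}) :=
    aevalTower g1 (fun _ => m (lv ℓ r))
  have hgc : ∀ c, g (C c) = g1 c := fun c => aevalTower_C _ _ _
  have hgv : g (X ()) = m (lv ℓ r) := aevalTower_X _ _ _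
  refine ⟨mkIso f g ?_ ?_⟩
  · apply q_ext
    intro x
    have h : g.comp f1 = m := by
      apply l_ext
      · intro c
        rw [AlgHom.comp_apply, hf1c, hφ, hgc, hg1]
      · rw [AlgHom.comp_apply, hf1v, hgv]
    exact DFunLike.congr_fun h x
  · apply poly_ext
    · intro c
      obtain ⟨c, rfl⟩ := Ideal.Quotient.mk_surjective c
      rw [AlgHom.comp_apply, hgc, hg1, hf, hf1c, hφ]
      rfl
    · intro t
      rw [AlgHom.comp_apply]
      change f (g (X ())) = X ()
      rw [hgv, hf, hf1v]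

/-- the open part -/
theorem lOpen : Nonempty (Localization.Away (lc k ℓ r ℓ) ≃ₐ[k] Localization.Away ℓ) := by
  let m := IsScalarTower.toAlgHom k (Lq ℓ r) (Localization.Away (lc k ℓ r ℓ))
  let n := IsScalarTower.toAlgHom k R (Localization.Away ℓ)
  have hm : IsUnit (m (lc k ℓ r ℓ)) := IsLocalization.Away.algebraMap_isUnit _
  have hn : IsUnit (n ℓ) := IsLocalization.Away.algebraMap_isUnit _
  obtain ⟨u, hu⟩ := hn
  have hu1 : n ℓ * (↑u⁻¹ : Localization.Away ℓ) = 1 := by rw [← hu, Units.mul_inv]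
  let f1 : Lq ℓ r →ₐ[k] Localization.Away ℓ := lLift n (-((↑u⁻¹ : Localization.Away ℓ) * n r)) (by
    linear_combination (-(n r)) * hu1)
  have hf1c : ∀ c, f1 (lc k ℓ r c) = n c := fun c => lLift_lc _ _ _ c
  have hf1v : f1 (lv ℓ r) = -((↑u⁻¹ : Localization.Away ℓ) * n r) := lLift_lv _ _ _
  let f : Localization.Away (lc k ℓ r ℓ) →ₐ[k] Localization.Away ℓ :=
    IsLocalization.liftAlgHom (M := Submonoid.powers (lc k ℓ r ℓ)) (f := f1) (by
      rintro ⟨_, i, rfl⟩
      change IsUnit (f1 (lc k ℓ r ℓ ^ i))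
      rw [map_pow, hf1c, ← hu]
      exact u.isUnit.pow i)
  have hf : ∀ x, f (m x) = f1 x := fun x => IsLocalization.lift_eq _ _
  let g : Localization.Away ℓ →ₐ[k] Localization.Away (lc k ℓ r ℓ) :=
    IsLocalization.liftAlgHom (M := Submonoid.powers ℓ) (f := m.comp (lc k ℓ r)) (by
      rintro ⟨_, i, rfl⟩
      change IsUnit (m (lc k ℓ r (ℓ ^ i)))
      rw [map_pow, map_pow]
      exact hm.pow i)
  have hg : ∀ x, g (n x) = m (lc k ℓ r x) := fun x => IsLocalization.lift_eq _ _
  refine ⟨mkIso f g ?_ ?_⟩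
  · apply AlgHom.coe_ringHom_injective
    refine IsLocalization.ringHom_ext (Submonoid.powers (lc k ℓ r ℓ)) ?_
    have h : (g.comp f).comp m = m := by
      apply l_ext
      · intro c
        change g (f (m (lc k ℓ r c))) = m (lc k ℓ r c)
        rw [hf, hf1c, hg]
      · change g (f (m (lv ℓ r))) = m (lv ℓ r)
        rw [hf, hf1v, map_neg, map_mul, hg]
        have h1 : m (lc k ℓ r ℓ) * g (↑u⁻¹ : Localization.Away ℓ) = 1 := by
          rw [← hg, ← map_mul, hu1, map_one]
        have h2 : m (lc k ℓ r ℓ) * m (lv ℓ r) + m (lc k ℓ r r) = 0 := by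
          rw [← map_mul, ← map_add, l_rel, map_zero]
        linear_combination (-(g (↑u⁻¹ : Localization.Away ℓ))) * h2 + (m (lv ℓ r)) * h1
    ext x
    exact DFunLike.congr_fun h x
  · apply AlgHom.coe_ringHom_injective
    refine IsLocalization.ringHom_ext (Submonoid.powers ℓ) ?_
    ext x
    change f (g (n x)) = n x
    rw [hg, hf, hf1c]

/-- in terms of polynomials in several variables -/
theorem lqIso {E : Type} [CommRing E] [Algebra k E] {M : ℕ} (ℓ r : MvPolynomial (Fin M) E) :
    Nonempty (Lq ℓ r ≃ₐ[k] Tq (Ideal.span {up ℓ * X 0 + up r})) := by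
  refine ⟨Ideal.quotientEquivAlg _ _ ((finSuccEquiv E M).symm.restrictScalars k) ?_⟩
  rw [Ideal.map_span, Set.image_singleton]
  congr 2
  apply (finSuccEquiv E M).injective
  change _ = finSuccEquiv E M ((finSuccEquiv E M).symm _)
  rw [AlgEquiv.apply_symm_apply, map_add, map_mul, fs_up, fs_up, finSuccEquiv_X_zero]

end lin

/-! ### quadratic extensions -/

/-- The algebra `E[T] / (T^2 + b T + c)`. -/
def Quad {E : Type} [CommRing E] (b c : E) : Type :=
  AdjoinRoot (Polynomial.X ^ 2 + (Polynomial.C b * Polynomial.X + Polynomial.C c))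

section quad

variable {E : Type} [CommRing E] [Algebra k E] {b c : E}

noncomputable instance : CommRing (Quad b c) := inferInstanceAs (CommRing (AdjoinRoot _))

noncomputable instance : Algebra E (Quad b c) := inferInstanceAs (Algebra E (AdjoinRoot _))

noncomputable instance : Algebra k (Quad b c) := inferInstanceAs (Algebra k (AdjoinRoot _))

instance : IsScalarTower k E (Quad b c) := inferInstanceAs (IsScalarTower k E (AdjoinRoot _))

/-- the root -/
noncomputable def qr (b c : E) : Quad b c := AdjoinRoot.root _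

lemma qr_rel : qr b c ^ 2 + (algebraMap E (Quad b c) b * qr b c + algebraMap E (Quad b c) c) = 0 := by
  have h := AdjoinRoot.eval₂_root (Polynomial.X ^ 2 + (Polynomial.C b * Polynomial.X +
    Polynomial.C c))
  rw [Polynomial.eval₂_add, Polynomial.eval₂_add, Polynomial.eval₂_mul, Polynomial.eval₂_pow,
    Polynomial.eval₂_X, Polynomial.eval₂_C, Polynomial.eval₂_C] at h
  exact h

omit [Algebra k E] in
lemma quad_deg : (Polynomial.C b * Polynomial.X + Polynomial.C c).degree < 2 := by
  refine lt_of_le_of_lt (Polynomial.degree_linear_le) ?_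
  norm_num

lemma quad_monic : (Polynomial.X ^ 2 + (Polynomial.C b * Polynomial.X + Polynomial.C c)).Monic :=
  Polynomial.monic_X_pow_add quad_deg

lemma quad_finite : Module.Finite E (Quad b c) := quad_monic.finite_adjoinRoot

lemma quad_free : ∃ n : ℕ, 0 < n ∧ Nonempty (Quad b c ≃ₗ[E] (Fin n → E)) := by
  by_cases hs : Subsingleton E
  · have h1 : Subsingleton (Quad b c) := Module.subsingleton E (Quad b c)
    exact ⟨1, one_pos, ⟨{ toFun := fun _ => 0
                          invFun := fun _ => 0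
                          map_add' := fun _ _ => Subsingleton.elim _ _
                          map_smul' := fun _ _ => Subsingleton.elim _ _
                          left_inv := fun _ => Subsingleton.elim _ _
                          right_inv := fun _ => Subsingleton.elim _ _ }⟩⟩
  · have hn : Nontrivial E := not_subsingleton_iff_nontrivial.mp hs
    refine ⟨2, two_pos, ⟨?_⟩⟩
    have h := (AdjoinRoot.powerBasis' (quad_monic (b := b) (c := c))).basis.equivFun
    have h2 : (AdjoinRoot.powerBasis' (quad_monic (b := b) (c := c))).dim = 2 := by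
      rw [AdjoinRoot.powerBasis'_dim]
      exact Polynomial.natDegree_eq_of_degree_eq_some
        (by rw [Polynomial.degree_add_eq_left_of_degree_lt (by
              rw [Polynomial.degree_X_pow]; exact quad_deg), Polynomial.degree_X_pow])
    rw [h2] at h
    exact h

end quad

end Pool.Agent.V5helper52.SF
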