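import Pool.Agent.V5helper52.SF.QAlg2
import Pool.Agent.V5helper52.SF.Cls
import Pool.Agent.Z125.UN.Dim
import Pool.Agent.Z125.UN.NI

/-!
# Equations of degree at most two over a base of given dimension
-/

set_option autoImplicit false
set_option maxHeartbeats 400000

open CategoryTheory AlgebraicGeometry MvPolynomial Pool.Agent.Y116.UV Pool.Agent.Z125.UN
  TensorProduct

namespace Pool.Agent.V5helper52.SF

variable {k : Type} [Field k]

instance tq_ft {τ : Type} [Finite τ] {E : Type} [CommRing E] [Algebra k E]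
    [Algebra.FiniteType k E] (J : Ideal (MvPolynomial τ E)) : Algebra.FiniteType k (Tq J) :=
  have : Algebra.FiniteType k (MvPolynomial τ E) :=
    Algebra.FiniteType.trans (S := E) inferInstance inferInstance
  Algebra.FiniteType.of_surjective (tm k J) tm_surj

instance lq_ft {R : Type} [CommRing R] [Algebra k R] [Algebra.FiniteType k R] (ℓ r : R) :
    Algebra.FiniteType k (Lq ℓ r) :=
  have : Algebra.FiniteType k (Polynomial R) :=
    Algebra.FiniteType.trans (S := R) inferInstance inferInstance
  Algebra.FiniteType.of_surjective (lm k ℓ r) lm_surj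

lemma dX {E : Type} [CommRing E] {σ : Type} (s : σ) : (X s : MvPolynomial σ E).totalDegree ≤ 1 := by
  refine (totalDegree_monomial_le _ _).trans ?_
  rw [Finsupp.sum_single_index rfl, id_eq]

lemma d_add {E : Type} [CommRing E] {σ : Type} {d : ℕ} {p q : MvPolynomial σ E}
    (hp : p.totalDegree ≤ d) (hq : q.totalDegree ≤ d) : (p + q).totalDegree ≤ d :=
  (totalDegree_add p q).trans (max_le hp hq)

lemma d_mul {E : Type} [CommRing E] {σ : Type} {d e f : ℕ} {p q : MvPolynomial σ E}
    (hp : p.totalDegree ≤ d) (hq : q.totalDegree ≤ e) (h : d + e ≤ f) :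
    (p * q).totalDegree ≤ f :=
  (totalDegree_mul p q).trans ((Nat.add_le_add hp hq).trans h)

lemma d_C {E : Type} [CommRing E] {σ : Type} {d : ℕ} (c : E) :
    (C c : MvPolynomial σ E).totalDegree ≤ d := by
  rw [totalDegree_C]
  exact Nat.zero_le _

lemma d_pow {E : Type} [CommRing E] {σ : Type} {p : MvPolynomial σ E}
    (hp : p.totalDegree ≤ 1) : (p ^ 2).totalDegree ≤ 2 := by
  rw [pow_two]
  exact d_mul hp hp le_rfl

section

variable {sep : Prop} {P : Sch k → Prop} (hP : Cls sep P)

include hP

/-- Noetherian induction on the base -/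
theorem noethT {τ : Type} [Finite τ] {E : Type} [CommRing E] [Algebra k E]
    [Algebra.FiniteType k E] (J : Ideal (MvPolynomial τ E))
    (hD : ∀ p : Ideal E, p.IsPrime → ∃ w : E ⧸ p, w ≠ 0 ∧
      P (aff k (Tq (bc ((IsScalarTower.toAlgHom k (E ⧸ p) (Localization.Away w)).comp
        (Ideal.Quotient.mkₐ k p)) J)))) : P (aff k (Tq J)) := by
  have hB := hP.toBnd
  have hN : IsNoetherianRing E := Algebra.FiniteType.isNoetherianRing k E
  have key : ∀ I : Ideal E, P (aff k (Tq J ⧸ Ideal.map (tc k J) I)) := by
    intro I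
    induction I using IsNoetherian.induction with
    | hgt I ih =>
    by_cases hI : I = ⊤
    · subst hI
      refine p_empty hB _ ?_
      rw [Ideal.map_top]
      exact Ideal.Quotient.subsingleton_iff.mpr rfl
    by_cases hp : Ideal.IsPrime I
    · obtain ⟨w, hw, hPw⟩ := hD I hp
      obtain ⟨w, rfl⟩ := Ideal.Quotient.mk_surjective w
      refine ring_total hB (Ideal.Quotient.mk _ (tc k J w)) (quot_mk hB _ _ ?_) ?_
      · have h1 : Ideal.map (tc k J) I ⊔ Ideal.span {tc k J w} =
            Ideal.map (tc k J) (I ⊔ Ideal.span {w}) := by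
          rw [Ideal.map_sup, Ideal.map_span, Set.image_singleton]
        rw [h1]
        refine ih _ (lt_of_le_of_ne le_sup_left fun h => hw ?_)
        rw [Ideal.Quotient.eq_zero_iff_mem, h]
        exact Ideal.mem_sup_right (Ideal.mem_span_singleton_self w)
      · obtain ⟨e, he⟩ := tQuot (k := k) (J := J) I
        have hft : Algebra.FiniteType k (E ⧸ I) := inferInstance
        have := away_ft (k := k) (Ideal.Quotient.mk I w)
        obtain ⟨e1⟩ := awayIso (k := k) e (Ideal.Quotient.mk _ (tc k J w))
        rw [he w] at e1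
        obtain ⟨e2⟩ := tAway (k := k) (J := bc (Ideal.Quotient.mkₐ k I) J) (Ideal.Quotient.mk I w)
        rw [bc_comp] at e2
        exact iso_symm hP ⟨e1.trans e2⟩ hPw
    · have h1 : ∃ a b, a * b ∈ I ∧ a ∉ I ∧ b ∉ I := by
        by_contra hcon
        push Not at hcon
        exact hp ⟨hI, fun {a b} hab => by
          by_contra h
          push Not at h
          exact h.2 (hcon a b hab h.1)⟩
      obtain ⟨a, b, hab, ha, hb⟩ := h1
      have hJ : ∀ c, c ∉ I → I < I ⊔ Ideal.span {c} := fun c hc =>
        lt_of_le_of_ne le_sup_left fun h => hc (by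
          rw [h]
          exact Ideal.mem_sup_right (Ideal.mem_span_singleton_self c))
      have hs : ∀ c, Ideal.map (tc k J) I ⊔ Ideal.span {tc k J c} =
          Ideal.map (tc k J) (I ⊔ Ideal.span {c}) := fun c => by
        rw [Ideal.map_sup, Ideal.map_span, Set.image_singleton]
      have hPa := quot_mk hB (Ideal.map (tc k J) I) (tc k J a) (by
        rw [hs]
        exact ih _ (hJ a ha))
      have hPb := quot_mk hB (Ideal.map (tc k J) I) (tc k J b) (by
        rw [hs]
        exact ih _ (hJ b hb))
      refine ring_total hB _ hPa (zero_div hB (b := Ideal.Quotient.mk _ (tc k J b)) ?_ hPb ?_)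
      · rw [← map_mul, Ideal.Quotient.eq_zero_iff_mem, ← map_mul]
        exact Ideal.mem_map_of_mem _ hab
      · have h2 := ih (I ⊔ (Ideal.span {b} ⊔ Ideal.span {a}))
          (lt_of_lt_of_le (hJ b hb) (sup_le_sup_left le_sup_left I))
        rw [Ideal.map_sup] at h2
        have h3 := quot_ideal hB (Ideal.map (tc k J) I) _ h2
        have h4 : Ideal.map (Ideal.Quotient.mkₐ k (Ideal.map (tc k J) I))
            (Ideal.map (tc k J) (Ideal.span {b} ⊔ Ideal.span {a})) =
            Ideal.span {Ideal.Quotient.mk (Ideal.map (tc k J) I) (tc k J b)} ⊔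
              Ideal.span {Ideal.Quotient.mk (Ideal.map (tc k J) I) (tc k J a)} := by
          rw [Ideal.map_sup, Ideal.map_sup, Ideal.map_span, Ideal.map_span, Ideal.map_span,
            Ideal.map_span, Set.image_singleton, Set.image_singleton, Set.image_singleton,
            Set.image_singleton]
          rfl
        rw [h4] at h3
        exact quot_mk hB _ _ h3
  have h := key ⊥
  rw [Ideal.map_bot] at h
  exact iso_alg hP.toUni (AlgEquiv.quotientBot k (Tq J)) h

/-- an equation which is linear in one variable -/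
theorem lin_step {R : Type} [CommRing R] [Algebra k R] [Algebra.FiniteType k R] (ℓ r : R)
    (h1 : P (aff k R)) (h2 : P (aff k (R ⧸ Ideal.span {ℓ})))
    (h3 : P (aff k (R ⧸ Ideal.span {ℓ, r}))) : P (aff k (Lq ℓ r)) := by
  have hB := hP.toBnd
  refine ring_total hB (lc k ℓ r ℓ) ?_ ?_
  · exact iso_symm hP lClosed (p_poly hB Unit h3)
  · have := away_ft (k := k) ℓ
    exact iso_symm hP lOpen (ring_open hB ℓ h2 h1)

/-- base change to a finite free algebra -/
theorem free_step {τ : Type} [Finite τ] {E E' : Type} [CommRing E] [Algebra k E]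
    [Algebra.FiniteType k E] [CommRing E'] [Algebra k E'] [Algebra E E'] [IsScalarTower k E E']
    [Algebra.FiniteType k E'] {n : ℕ} (hn : 0 < n) (hb : Nonempty (E' ≃ₗ[E] (Fin n → E)))
    (J : Ideal (MvPolynomial τ E))
    (h : P (aff k (Tq (bc (IsScalarTower.toAlgHom k E E') J)))) : P (aff k (Tq J)) := by
  obtain ⟨b⟩ := hb
  have h2 : P (aff k (Tq J ⊗[E] E')) := iso_symm hP tTens h
  refine hP.free (Tq J) (Tq J ⊗[E] E') n hn ⟨?_⟩ h2
  exact ((TensorProduct.AlgebraTensorModule.congr (LinearEquiv.refl (Tq J) (Tq J)) b).trans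
    (TensorProduct.piScalarRight E (Tq J) (Tq J) (Fin n)))

end

end Pool.Agent.V5helper52.SF
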